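import Pool.Agent.H973.TD.Stm

/-! Leaf B1 (by helper591). -/

namespace Pool.Agent.H973.TD

open Finset
open Classical

namespace B1L

/-- the ordered adjacent pairs -/
noncomputable def DP {V : Type} (G : SimpleGraph V) (S : Finset V) : Finset (V × V) :=
  (S ×ˢ S).filter (fun p => G.Adj p.1 p.2)

theorem dd_eq {V : Type} (G : SimpleGraph V) (S : Finset V) : dd G S = (DP G S).card := rfl

theorem fiber_ge {V : Type} [Fintype V] (G : SimpleGraph V) (F : G.Subgraph) (S : Finset V)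
    (hS : ∀ v, v ∈ S ↔ v ∈ F.verts) (e : Sym2 V) (he : e ∈ F.edgeSet) :
    2 ≤ ((DP G S).filter (fun p => s(p.1, p.2) = e)).card := by
  induction e using Sym2.ind with
  | _ u v =>
    rw [SimpleGraph.Subgraph.mem_edgeSet] at he
    have h1 : G.Adj u v := he.adj_sub
    have hne : u ≠ v := h1.ne
    have hu : u ∈ S := (hS u).2 he.fst_mem
    have hv : v ∈ S := (hS v).2 he.snd_mem
    have hsub : ({(u, v), (v, u)} : Finset (V × V)) ⊆ (DP G S).filter (fun p => s(p.1, p.2) = s(u, v)) := by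
      intro p hp
      rw [Finset.mem_insert, Finset.mem_singleton] at hp
      rcases hp with rfl | rfl
      · rw [Finset.mem_filter, DP, Finset.mem_filter, Finset.mem_product]
        exact ⟨⟨⟨hu, hv⟩, h1⟩, rfl⟩
      · rw [Finset.mem_filter, DP, Finset.mem_filter, Finset.mem_product]
        exact ⟨⟨⟨hv, hu⟩, h1.symm⟩, Sym2.eq_swap⟩
    have hcard : ({(u, v), (v, u)} : Finset (V × V)).card = 2 := by
      apply Finset.card_pair
      intro h
      exact hne (Prod.mk.inj h).1
    rw [← hcard]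
    exact Finset.card_le_card hsub

theorem two_edges_le {V : Type} [Fintype V] (G : SimpleGraph V) (F : G.Subgraph) (S : Finset V)
    (hS : ∀ v, v ∈ S ↔ v ∈ F.verts) : 2 * F.edgeSet.ncard ≤ dd G S := by
  have hfin : F.edgeSet.Finite := Set.toFinite _
  rw [Set.ncard_eq_toFinset_card _ hfin]
  set E := hfin.toFinset with hE
  have h1 := Finset.sum_card_fiberwise_eq_card_filter (DP G S) E (fun p => s(p.1, p.2))
  have h2 : ∑ e ∈ E, 2 ≤ ∑ e ∈ E, ((DP G S).filter (fun p => s(p.1, p.2) = e)).card := by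
    refine Finset.sum_le_sum fun e he => ?_
    apply fiber_ge G F S hS e
    rw [hE, Set.Finite.mem_toFinset] at he
    exact he
  rw [Finset.sum_const, smul_eq_mul] at h2
  have h3 : ((DP G S).filter (fun p => s(p.1, p.2) ∈ E)).card ≤ (DP G S).card :=
    Finset.card_filter_le _ _
  rw [dd_eq]
  omega

theorem verts_fin {V : Type} [Fintype V] {G : SimpleGraph V} (F : G.Subgraph) :
    ∃ S : Finset V, (∀ v, v ∈ S ↔ v ∈ F.verts) ∧ S.card = F.verts.ncard := by
  refine ⟨F.verts.toFinset, fun v => Set.mem_toFinset, ?_⟩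
  rw [Set.ncard_eq_toFinset_card']

theorem d2_le {V : Type} [Fintype V] (G : SimpleGraph V) (μ : ℝ)
    (h : ∀ S : Finset V, 3 ≤ S.card → (dd G S : ℝ) - 2 ≤ 2 * μ * ((S.card : ℝ) - 2))
    (F : G.Subgraph) (hF : 3 ≤ F.verts.ncard) : d2 F ≤ μ := by
  obtain ⟨S, hS, hc⟩ := verts_fin F
  have h1 := h S (by omega)
  have h2 := two_edges_le G F S hS
  have h3 : 2 * (F.edgeSet.ncard : ℝ) ≤ dd G S := by exact_mod_cast h2
  have h4 : (3 : ℝ) ≤ F.verts.ncard := by exact_mod_cast hF
  rw [hc] at h1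
  unfold d2
  rw [div_le_iff₀ (by linarith)]
  linarith

theorem d2_lt {V : Type} [Fintype V] (G : SimpleGraph V) (μ : ℝ)
    (h : ∀ S : Finset V, 3 ≤ S.card → (dd G S : ℝ) - 2 < 2 * μ * ((S.card : ℝ) - 2))
    (F : G.Subgraph) (hF : 3 ≤ F.verts.ncard) : d2 F < μ := by
  obtain ⟨S, hS, hc⟩ := verts_fin F
  have h1 := h S (by omega)
  have h2 := two_edges_le G F S hS
  have h3 : 2 * (F.edgeSet.ncard : ℝ) ≤ dd G S := by exact_mod_cast h2
  have h4 : (3 : ℝ) ≤ F.verts.ncard := by exact_mod_cast hF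
  rw [hc] at h1
  unfold d2
  rw [div_lt_iff₀ (by linarith)]
  linarith

theorem set_fin {V : Type} [Fintype V] (G : SimpleGraph V) :
    {x : ℝ | ∃ F : G.Subgraph, 3 ≤ F.verts.ncard ∧ x = d2 F}.Finite := by
  have h : {x : ℝ | ∃ F : G.Subgraph, 3 ≤ F.verts.ncard ∧ x = d2 F} ⊆ Set.range (fun F : G.Subgraph => d2 F) := by
    rintro x ⟨F, _, rfl⟩
    exact ⟨F, rfl⟩
  exact (Set.finite_range _).subset h

theorem set_ne {V : Type} [Fintype V] (G : SimpleGraph V) (h3 : 3 ≤ Fintype.card V) :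
    {x : ℝ | ∃ F : G.Subgraph, 3 ≤ F.verts.ncard ∧ x = d2 F}.Nonempty := by
  refine ⟨d2 (⊤ : G.Subgraph), ⊤, ?_, rfl⟩
  rw [SimpleGraph.Subgraph.verts_top, Set.ncard_univ, Nat.card_eq_fintype_card]
  exact h3

/-- the induced subgraph -/
theorem induce_le {V : Type} [Fintype V] (G : SimpleGraph V) (S : Finset V) :
    dd G S ≤ 2 * ((⊤ : G.Subgraph).induce (S : Set V)).edgeSet.ncard := by
  set F := (⊤ : G.Subgraph).induce (S : Set V) with hF
  have hfin : F.edgeSet.Finite := Set.toFinite _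
  rw [Set.ncard_eq_toFinset_card _ hfin]
  set E := hfin.toFinset with hE
  have hmap : ∀ p ∈ DP G S, s(p.1, p.2) ∈ E := by
    intro p hp
    rw [DP, Finset.mem_filter, Finset.mem_product] at hp
    rw [hE, Set.Finite.mem_toFinset, SimpleGraph.Subgraph.mem_edgeSet]
    exact ⟨hp.1.1, hp.1.2, hp.2⟩
  have h1 := Finset.card_eq_sum_card_fiberwise (f := fun p : V × V => s(p.1, p.2)) (s := DP G S) (t := E) hmap
  have h2 : ∀ e ∈ E, ((DP G S).filter (fun p => s(p.1, p.2) = e)).card ≤ 2 := by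
    intro e _
    induction e using Sym2.ind with
    | _ u v =>
      have hsub : (DP G S).filter (fun p => s(p.1, p.2) = s(u, v)) ⊆ ({(u, v), (v, u)} : Finset (V × V)) := by
        intro p hp
        rw [Finset.mem_filter] at hp
        have h4 := Sym2.eq_iff.1 hp.2
        rw [Finset.mem_insert, Finset.mem_singleton]
        rcases h4 with ⟨h5, h6⟩ | ⟨h5, h6⟩
        · left
          exact Prod.ext h5 h6
        · right
          exact Prod.ext h5 h6
      exact (Finset.card_le_card hsub).trans (Finset.card_le_two)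
  have h3 := Finset.sum_le_sum h2
  rw [Finset.sum_const, smul_eq_mul] at h3
  rw [dd_eq]
  omega

end B1L

open B1L in
theorem b1 : S_B1 := by
  intro V _ G μ h3 h
  apply csSup_le (set_ne G h3)
  rintro x ⟨F, hF, rfl⟩
  exact d2_le G μ h F hF

open B1L in
theorem b1s : S_B1s := by
  intro V _ G μ h3 h
  obtain ⟨F, hF, hx⟩ := (set_ne G h3).csSup_mem (set_fin G)
  unfold m2
  rw [hx]
  exact d2_lt G μ h F hF

open B1L in
theorem b2 : S_B2 := by
  intro V _ G μ S hS h
  set F := (⊤ : G.Subgraph).induce (S : Set V) with hF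
  have hv : F.verts.ncard = S.card := by
    rw [hF, SimpleGraph.Subgraph.induce_verts, Set.ncard_coe_finset]
  have h1 : d2 F ≤ m2 G := by
    apply le_csSup (set_fin G).bddAbove
    exact ⟨F, by omega, rfl⟩
  refine le_trans ?_ h1
  have h2 := induce_le G S
  rw [← hF] at h2
  have h3 : (dd G S : ℝ) ≤ 2 * F.edgeSet.ncard := by exact_mod_cast h2
  have h4 : (3 : ℝ) ≤ S.card := by exact_mod_cast hS
  unfold d2
  rw [hv, le_div_iff₀ (by linarith)]
  linarith

end Pool.Agent.H973.TD
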