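import Pool.Agent.H973.TD.Stm

/-!
# Project TD (helper973), leaf B3: transfer of `M` to arbitrary vertex types
-/

namespace Pool.Agent.H973.TD

open Finset
open Classical

namespace B3L

lemma indep_iff {V : Type} (G : SimpleGraph V) (I : Finset V) :
    G.IsIndepSet (I : Set V) ↔ Indep G I := by
  constructor
  · intro h u hu v hv huv
    exact h (by exact_mod_cast hu) (by exact_mod_cast hv) huv.ne huv
  · intro h u hu v hv _
    exact h u (by exact_mod_cast hu) v (by exact_mod_cast hv)

lemma indepNum_lt {V : Type} [Fintype V] (G : SimpleGraph V) (r : ℕ) :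
    G.indepNum < r ↔ ∀ I : Finset V, Indep G I → I.card < r := by
  constructor
  · intro h I hI
    exact lt_of_le_of_lt (SimpleGraph.IsIndepSet.card_le_indepNum ((indep_iff G I).2 hI)) h
  · intro h
    obtain ⟨I, hI⟩ := G.exists_isNIndepSet_indepNum
    have h1 := h I ((indep_iff G I).1 hI.isIndepSet)
    rwa [hI.card_eq] at h1

lemma finite_vals (m r : ℕ) :
    {x : ℝ | ∃ G : SimpleGraph (Fin m), G.indepNum < r ∧ x = m2 G}.Finite := by
  refine (Set.finite_range (fun G : SimpleGraph (Fin m) => m2 G)).subset ?_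
  rintro x ⟨G, _, rfl⟩
  exact ⟨G, rfl⟩

lemma dd_comap {V W : Type} (G : SimpleGraph V) (e : W ≃ V) (S : Finset W) :
    dd (G.comap e) S = dd G (S.map e.toEmbedding) := by
  unfold dd
  refine Finset.card_bij' (fun p _ => (e p.1, e p.2)) (fun q _ => (e.symm q.1, e.symm q.2))
    ?_ ?_ ?_ ?_
  · rintro ⟨a, b⟩ h
    simp only [mem_filter, mem_product, SimpleGraph.comap_adj] at h
    simp only [mem_filter, mem_product, mem_map_equiv, Equiv.symm_apply_apply]
    exact h
  · rintro ⟨a, b⟩ h
    simp only [mem_filter, mem_product, mem_map_equiv] at h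
    simp only [mem_filter, mem_product, SimpleGraph.comap_adj, Equiv.apply_symm_apply]
    exact h
  · rintro ⟨a, b⟩ _
    simp
  · rintro ⟨a, b⟩ _
    simp

end B3L

open B3L in
theorem b3 (h1 : S_B1) (h2 : S_B2) : S_B3 := by
  intro m r V _ G hm hV hI
  let e : Fin m ≃ V := (Fintype.equivFinOfCardEq hV).symm
  have hle : M m r ≤ m2 (G.comap e) := by
    refine csInf_le (finite_vals m r).bddBelow ⟨G.comap e, ?_, rfl⟩
    rw [indepNum_lt]
    intro I hI'
    have h3 : Indep G (I.map e.toEmbedding) := by
      intro u hu v hv huv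
      rw [mem_map_equiv] at hu hv
      refine hI' _ hu _ hv ?_
      rw [SimpleGraph.comap_adj, Equiv.apply_symm_apply, Equiv.apply_symm_apply]
      exact huv
    have h4 := hI _ h3
    rwa [card_map] at h4
  refine hle.trans (h1 (Fin m) (G.comap e) (m2 G) (by rw [Fintype.card_fin]; exact hm) ?_)
  intro S hS
  have hS' : (3 : ℝ) ≤ S.card := by exact_mod_cast hS
  have hpos : (0 : ℝ) < (S.card : ℝ) - 2 := by linarith
  have hcard : (S.map e.toEmbedding).card = S.card := card_map _
  have h5 := h2 V G (((dd (G.comap e) S : ℝ) - 2) / (2 * ((S.card : ℝ) - 2)))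
    (S.map e.toEmbedding) (by rw [hcard]; exact hS) (by
      rw [← dd_comap, hcard]
      refine le_of_eq ?_
      field_simp)
  rw [div_le_iff₀ (by positivity)] at h5
  linarith

open B3L in
theorem b4 : S_B4 := by
  intro m r μ hr hm h
  refine le_csInf ⟨_, ⊤, ?_, rfl⟩ ?_
  · rw [indepNum_lt]
    intro I hI
    have h1 : I.card ≤ 1 := by
      rw [Finset.card_le_one]
      intro a ha b hb
      by_contra hab
      exact hI a ha b hb (by rw [SimpleGraph.top_adj]; exact hab)
    omega
  · rintro x ⟨G, hG, rfl⟩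
    exact h G ((indepNum_lt G r).1 hG)

end Pool.Agent.H973.TD
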