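import Pool.Agent.H973.TD.Stm

/-!
# The supremum in `m2` and the infimum in `M` are attained (MP_303581_co)
-/

namespace Pool.Agent.H973.TD

namespace B5L

theorem fin1 {V : Type} [Finite V] (G : SimpleGraph V) :
    {x : ℝ | ∃ F : G.Subgraph, 3 ≤ F.verts.ncard ∧ x = d2 F}.Finite := by
  refine (Set.finite_range (fun F : G.Subgraph => d2 F)).subset ?_
  rintro x ⟨F, -, rfl⟩
  exact ⟨F, rfl⟩

theorem ne1 {V : Type} [Fintype V] (hV : 3 ≤ Fintype.card V) (G : SimpleGraph V) :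
    {x : ℝ | ∃ F : G.Subgraph, 3 ≤ F.verts.ncard ∧ x = d2 F}.Nonempty := by
  refine ⟨d2 (⊤ : G.Subgraph), ⊤, ?_, rfl⟩
  rw [SimpleGraph.Subgraph.verts_top, Set.ncard_univ, Nat.card_eq_fintype_card]
  exact hV

theorem fin2 (m r : ℕ) :
    {x : ℝ | ∃ G : SimpleGraph (Fin m), G.indepNum < r ∧ x = m2 G}.Finite := by
  refine (Set.finite_range (fun G : SimpleGraph (Fin m) => m2 G)).subset ?_
  rintro x ⟨G, -, rfl⟩
  exact ⟨G, rfl⟩

theorem indepNum_top_le {V : Type} [Finite V] : (⊤ : SimpleGraph V).indepNum ≤ 1 := by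
  obtain ⟨s, hs⟩ := (⊤ : SimpleGraph V).exists_isNIndepSet_indepNum
  rw [← hs.card_eq]
  rw [Finset.card_le_one]
  intro a ha b hb
  by_contra hab
  exact hs.isIndepSet ha hb hab (by simpa using hab)

theorem ne2 (m r : ℕ) (hr : 2 ≤ r) :
    {x : ℝ | ∃ G : SimpleGraph (Fin m), G.indepNum < r ∧ x = m2 G}.Nonempty :=
  ⟨m2 (⊤ : SimpleGraph (Fin m)), ⊤, lt_of_le_of_lt indepNum_top_le (by omega), rfl⟩

end B5L

theorem b5 : S_B5 := by
  refine ⟨fun m hm G => ?_, fun m r hr _ => ?_⟩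
  · have hf := B5L.fin1 G
    have hn := B5L.ne1 (by simpa using hm) G
    exact ⟨hn.csSup_mem hf, fun x hx => le_csSup hf.bddAbove hx⟩
  · have hf := B5L.fin2 m r
    have hn := B5L.ne2 m r (by omega)
    exact ⟨hn.csInf_mem hf, fun x hx => csInf_le hf.bddBelow hx⟩

end Pool.Agent.H973.TD
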