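import Mathlib

/-!
# Minimum 2-density of graphs with bounded independence number (MP_303581_co): definitions and
statements of the project.

Parts: B (bridge between `m2`, `M` and counting of ordered adjacent pairs), C (disjoint cliques),
U (the cyclic / path arrangement of cliques minus one edge), R (triangle-free graphs:
`e >= 5 n - 10 alpha`), L (lower bound for large `k` by stability), Z (final assembly).
-/

namespace Pool.Agent.H973.TD

open Finset
open Classical

/-- `(e(F) - 1) / (v(F) - 2)` for a subgraph `F` of `G` -/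
noncomputable def d2 {V : Type} {G : SimpleGraph V} (F : G.Subgraph) : ℝ :=
  ((F.edgeSet.ncard : ℝ) - 1) / ((F.verts.ncard : ℝ) - 2)

/-- the 2-density of `G`: the maximum of `d2 F` over all subgraphs `F` with at least three
vertices -/
noncomputable def m2 {V : Type} (G : SimpleGraph V) : ℝ :=
  sSup {x : ℝ | ∃ F : G.Subgraph, 3 ≤ F.verts.ncard ∧ x = d2 F}

/-- `M(m,r)`: the minimum 2-density of a graph with `m` vertices and independence number less
than `r` -/
noncomputable def M (m r : ℕ) : ℝ :=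
  sInf {x : ℝ | ∃ G : SimpleGraph (Fin m), G.indepNum < r ∧ x = m2 G}

/-- ordered adjacent pairs inside `S`, i.e. twice the number of edges inside `S` -/
noncomputable def dd {V : Type} (G : SimpleGraph V) (S : Finset V) : ℕ :=
  ((S ×ˢ S).filter (fun p => G.Adj p.1 p.2)).card

/-- number of neighbours of `v` in `S` -/
noncomputable def dg {V : Type} (G : SimpleGraph V) (S : Finset V) (v : V) : ℕ :=
  (S.filter (fun u => G.Adj v u)).card

def Indep {V : Type} (G : SimpleGraph V) (I : Finset V) : Prop :=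
  ∀ u ∈ I, ∀ v ∈ I, ¬ G.Adj u v

def Clq {V : Type} (G : SimpleGraph V) (C : Finset V) : Prop :=
  ∀ u ∈ C, ∀ v ∈ C, u ≠ v → G.Adj u v

/-! ## Part B: bridge -/

/-- PROOF: for a subgraph `F` with `S = F.verts` (a finite set), `2 e(F) <= dd G S` (the map
`(u,v) -> s(u,v)` from the ordered pairs `(u,v)` with `F.Adj u v` onto the edges is two to one; or
`F.spanningCoe` and the sum of degrees formula, or `SimpleGraph.Dart` counting).  The set in `m2`
is nonempty as `3 <= card V` (take `⊤`), so `csSup_le`. -/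
def S_B1 : Prop :=
  ∀ (V : Type) [Fintype V] (G : SimpleGraph V) (μ : ℝ), 3 ≤ Fintype.card V →
    (∀ S : Finset V, 3 ≤ S.card → (dd G S : ℝ) - 2 ≤ 2 * μ * ((S.card : ℝ) - 2)) → m2 G ≤ μ

/-- strict version of `S_B1`.  PROOF: the set in `m2` is finite (there are finitely many
subgraphs) and nonempty, so the supremum is attained. -/
def S_B1s : Prop :=
  ∀ (V : Type) [Fintype V] (G : SimpleGraph V) (μ : ℝ), 3 ≤ Fintype.card V →
    (∀ S : Finset V, 3 ≤ S.card → (dd G S : ℝ) - 2 < 2 * μ * ((S.card : ℝ) - 2)) → m2 G < μ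

/-- PROOF: the subgraph of `G` induced on `S` (`(⊤ : G.Subgraph).induce S`) has
`2 e = dd G S`; the set in `m2` is finite, hence bounded above; `le_csSup`. -/
def S_B2 : Prop :=
  ∀ (V : Type) [Fintype V] (G : SimpleGraph V) (μ : ℝ) (S : Finset V), 3 ≤ S.card →
    2 * μ * ((S.card : ℝ) - 2) ≤ (dd G S : ℝ) - 2 → μ ≤ m2 G

/-- PROOF: transport `G` along an equivalence `V ≃ Fin m`; `m2` is invariant under graph
isomorphisms (directly, or through `S_B1`, `S_B2`: `m2` is the maximum over finsets `S` with at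
least three elements of `(dd G S - 2) / (2 (card S - 2))`), the independence number is less than
`r`; `csInf_le` (the set in `M` is finite, or bounded below as it is a finite set). -/
def S_B3 : Prop :=
  ∀ (m r : ℕ) (V : Type) [Fintype V] (G : SimpleGraph V), 3 ≤ m → Fintype.card V = m →
    (∀ I : Finset V, Indep G I → I.card < r) → M m r ≤ m2 G

/-- PROOF: `le_csInf`; nonempty: the complete graph has independence number at most `1`. -/
def S_B4 : Prop :=
  ∀ (m r : ℕ) (μ : ℝ), 2 ≤ r → 3 ≤ m →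
    (∀ G : SimpleGraph (Fin m), (∀ I : Finset (Fin m), Indep G I → I.card < r) → μ ≤ m2 G) →
    μ ≤ M m r

/-- supremum and infimum are attained (finite nonempty sets) -/
def S_B5 : Prop :=
  (∀ m : ℕ, 3 ≤ m → ∀ G : SimpleGraph (Fin m),
    IsGreatest {x : ℝ | ∃ F : G.Subgraph, 3 ≤ F.verts.ncard ∧ x = d2 F} (m2 G)) ∧
  (∀ m r : ℕ, 3 ≤ r → r ≤ m →
    IsLeast {x : ℝ | ∃ G : SimpleGraph (Fin m), G.indepNum < r ∧ x = m2 G} (M m r))

/-! ## Part C: disjoint cliques -/

/-- `s` disjoint cliques with `k` vertices each -/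
def CG (k s : ℕ) : SimpleGraph (Fin s × Fin k) := SimpleGraph.fromRel (fun p q => p.1 = q.1)

/-- PROOF: with `f i` = number of elements of `S` in block `i`, `f i ≤ k`,
`dd = Σ f i (f i - 1)`, and we need `Σ f i (k + 2 - f i) ≥ 2 k` : a term with `f i = 1` is
`k + 1`, a term with `2 ≤ f i ≤ k` is at least `2 k`, all terms are `≥ 0`, and
`Σ f i ≥ 3` (if all `f i ≤ 1` there are at least two blocks with `f i = 1`). -/
def S_C1 : Prop :=
  ∀ k s : ℕ, 2 ≤ k → ∀ S : Finset (Fin s × Fin k), 3 ≤ S.card →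
    (dd (CG k s) S : ℝ) - 2 ≤ ((k : ℝ) + 1) * ((S.card : ℝ) - 2)

def S_C2 : Prop :=
  ∀ k s : ℕ, ∀ I : Finset (Fin s × Fin k), Indep (CG k s) I → I.card ≤ s

/-! ## Part U: blocks `0, ..., s-1` arranged on a cycle; blocks `i < N` are cliques with `k`
vertices minus the edge `{0,2}`, blocks `i ≥ N` are cliques with `k-1` vertices; for `i < N` the
vertex `(i,0)` is joined to all odd vertices and `(i,2)` to all even vertices of block
`(i+1) % s`. -/

/-- vertices: `(block, index)`; blocks `≥ N` have only the indices `< k - 1` -/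
abbrev BV (k s N : ℕ) : Type :=
  {p : Fin s × Fin k // (p.1 : ℕ) < N ∨ (p.2 : ℕ) + 1 < k}

/-- oriented version of adjacency -/
def Rel (k s N : ℕ) (p q : BV k s N) : Prop :=
  ((p.1.1 : ℕ) = (q.1.1 : ℕ) ∧ (p.1.2 : ℕ) < (q.1.2 : ℕ) ∧
    ¬ ((p.1.1 : ℕ) < N ∧ (p.1.2 : ℕ) = 0 ∧ (q.1.2 : ℕ) = 2)) ∨
  ((p.1.1 : ℕ) < N ∧ (q.1.1 : ℕ) = ((p.1.1 : ℕ) + 1) % s ∧ (p.1.1 : ℕ) ≠ (q.1.1 : ℕ) ∧
    (((p.1.2 : ℕ) = 0 ∧ (q.1.2 : ℕ) % 2 = 1) ∨ ((p.1.2 : ℕ) = 2 ∧ (q.1.2 : ℕ) % 2 = 0)))

/-- the graph -/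
def BG (k s N : ℕ) : SimpleGraph (BV k s N) := SimpleGraph.fromRel (Rel k s N)

/-- number of vertices -/
def S_UC : Prop :=
  ∀ k s N : ℕ, 1 ≤ k → N ≤ s → Fintype.card (BV k s N) = (k - 1) * s + N

/-- PROOF: let `I` be independent.  A block contains at most one vertex of `I` unless it is a
block `i < N` and the two vertices are `(i,0),(i,2)`; in that case the block `(i+1) % s` (different
from `i` as `2 ≤ s`) contains no vertex of `I`, since each of its vertices is adjacent to `(i,0)`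
or `(i,2)`.  The map `i ↦ (i+1) % s` is injective on `i < s`, so
`|I| ≤ s + #{doubled blocks} - #{empty blocks} ≤ s`. -/
def S_UA : Prop :=
  ∀ k s N : ℕ, 3 ≤ k → 2 ≤ s → N ≤ s → ∀ I : Finset (BV k s N), Indep (BG k s N) I → I.card ≤ s

/-- number of elements of `F` in block `i` with odd index -/
noncomputable def oc {k s N : ℕ} (F : Finset (BV k s N)) (i : ℕ) : ℤ :=
  ((F.filter (fun p => (p.1.1 : ℕ) = i ∧ (p.1.2 : ℕ) % 2 = 1)).card : ℤ)

/-- number of elements of `F` in block `i` with even index -/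
noncomputable def ec {k s N : ℕ} (F : Finset (BV k s N)) (i : ℕ) : ℤ :=
  ((F.filter (fun p => (p.1.1 : ℕ) = i ∧ (p.1.2 : ℕ) % 2 = 0)).card : ℤ)

/-- indicator of `(i,0) ∈ F` for `i < N` -/
noncomputable def al {k s N : ℕ} (F : Finset (BV k s N)) (i : ℕ) : ℤ :=
  if i < N ∧ ∃ p ∈ F, (p.1.1 : ℕ) = i ∧ (p.1.2 : ℕ) = 0 then 1 else 0

/-- indicator of `(i,2) ∈ F` for `i < N` -/
noncomputable def be {k s N : ℕ} (F : Finset (BV k s N)) (i : ℕ) : ℤ :=
  if i < N ∧ ∃ p ∈ F, (p.1.1 : ℕ) = i ∧ (p.1.2 : ℕ) = 2 then 1 else 0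

/-- The quadratic form: (upper bound for) the number of ordered adjacent pairs. -/
def QF (s : ℕ) (o e a b : ℕ → ℤ) : ℤ :=
  ∑ i ∈ range s, ((o i + e i) * (o i + e i - 1) - 2 * (a i * b i) +
    2 * (a i * o ((i + 1) % s) + b i * e ((i + 1) % s)))

/-- the constraints satisfied by `oc, ec, al, be` -/
structure Con (k s N : ℕ) (o e a b : ℕ → ℤ) : Prop where
  o0 : ∀ i, 0 ≤ o i
  e0 : ∀ i, 0 ≤ e i
  o1 : ∀ i, 2 * o i ≤ k
  e1 : ∀ i, 2 * e i ≤ k + 1
  oe : ∀ i, o i + e i ≤ k
  a01 : ∀ i, a i = 0 ∨ a i = 1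
  b01 : ∀ i, b i = 0 ∨ b i = 1
  abe : ∀ i, a i + b i ≤ e i
  aN : ∀ i, N ≤ i → a i = 0
  bN : ∀ i, N ≤ i → b i = 0
  full : ∀ i, i < s → o i + e i = k → i < N ∧ a i = 1 ∧ b i = 1
  three : ∀ i, k = 3 → e i = 2 → a i = 1 ∧ b i = 1

/-- PROOF: counting inside the sets `F` (note `al + be ≤ ec` since `0` and `2` are different even
indices; if `k = 3` the even indices are `0, 2`, and in a block `≥ N` the index `2` does not
exist; if a block `i < s` is completely in `F`, i.e. `k` elements, then `i < N`, as blocks `≥ N`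
have `k-1` vertices only).  `3 ≤ k`. -/
def S_UCON : Prop :=
  ∀ k s N : ℕ, 3 ≤ k → 2 ≤ s → N ≤ s → ∀ F : Finset (BV k s N),
    Con k s N (oc F) (ec F) (al F) (be F) ∧
    ∑ i ∈ range s, (oc F i + ec F i) = (F.card : ℤ)

/-- PROOF: split the ordered adjacent pairs `(p,q)` of `F` into: same block (at most
`f (f-1) - 2 al be` in block `i`, `f = oc + ec`: all ordered pairs of different elements except
`((i,0),(i,2))` and its reverse if both are present and `i < N`), `q` in block `(block p + 1) % s`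
through the second clause of `Rel p q`, and the reverse. Only `≤` is needed. -/
def S_UCNT : Prop :=
  ∀ k s N : ℕ, 3 ≤ k → 2 ≤ s → N ≤ s → ∀ F : Finset (BV k s N),
    (dd (BG k s N) F : ℤ) ≤ QF s (oc F) (ec F) (al F) (be F)

/-- numerical lemma, path case `N < s`.
PROOF.  Write `f i = o i + e i`, `p i = (i + s - 1) % s` (predecessor),
`c i = (k+1) f i - f i (f i - 1) + 2 a i b i - 2 (a (p i) o i + b (p i) e i)`; we must show
`Σ c i > 2 k` (this is the claim: `QF - 2 < (k+1)(Σ f - 2)` iff `Σ c i > 2 k`, after the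
reindexing `i ↦ (i+1) % s` of the last sum).  Facts for a block with `f i ≥ 1`:
(A) if `a (p i) = b (p i) = 1` then `c i = f (k - f) + 2 a b ≥ 2` (for `f = k` use `full`);
(B) if `a (p i) = b (p i) = 0` then `c i = f (k+2-f) + 2ab`: it is `≥ k + 1`; `≥ 2k` if `f ≥ 2`;
`> 2k` if `f ≥ 3`;
(C) if exactly one of `a (p i), b (p i)` is `1` then `c i ≥ k - 1`, and `c i ≥ k` if `f ≥ 2`
(use `2 o ≤ k`, `2 e ≤ k+1`, and `three` when `k = 3`).
In particular `c i ≥ 2` whenever `f i ≥ 1`, and `c i = 0` if `f i = 0`.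
As `N < s` and `Σ f ≥ 3`, some nonempty block `i` is of type (B) (going back from a nonempty block
one reaches a block whose predecessor is inactive: the predecessors of a block that is active are
nonempty, and block `s-1` is inactive; e.g. take the smallest nonempty `i ≥ 0`: its predecessor is
empty or it is `i = 0` with predecessor `s-1 ≥ N`, inactive).
If there are two blocks of type (B): sum `≥ 2(k+1) > 2k`.  Otherwise let `i` be the only one.
`f i ≥ 3`: done.  `f i = 2`: `c i ≥ 2k` and another nonempty block adds `≥ 2`.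
`f i = 1`: `c i = k+1`.  Block `(i+1) % s` is nonempty (otherwise, the next nonempty block in
cyclic order would be a second block of type (B), and there is another nonempty block), it is of
type (C) because `a i + b i ≤ e i ≤ 1` and it is not of type (B); so it has
`c ≥ k - 1`, and either a third nonempty block adds `≥ 2`, or it has `f ≥ 2` and `c ≥ k`.
(The statement was tested by exhaustive dynamic programming for `3 ≤ k ≤ 7`, `s ≤ k+3`.) -/
def S_UNUM : Prop :=
  ∀ (k s N : ℕ) (o e a b : ℕ → ℤ), 3 ≤ k → 2 ≤ s → N < s → Con k s N o e a b →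
    3 ≤ ∑ i ∈ range s, (o i + e i) →
    QF s o e a b - 2 < ((k : ℤ) + 1) * (∑ i ∈ range s, (o i + e i) - 2)

/-- numerical lemma, cyclic case `N = s ≥ 3`: the whole graph is the densest subgraph.
PROOF.  Let `A = s (k+2) (k-1) - 2`, `B = k s - 2 > 0`, `λ = A / (2 B)`; `f i`, `p i` as in
`S_UNUM`, `c i = λ f i - f i (f i - 1)/2 + a i b i - (a (p i) o i + b (p i) e i)`.  The claim is
`Σ c i ≥ 2 λ - 1`.  Put `g = λ k - (k² + k - 2)/2`, then `s g = 2 λ - 1`, `g > 0`,
`5/3 ≤ λ ≤ k - 1`, `λ ≥ 2` if `k ≥ 4`, `3 λ ≥ 2 k ...` (only simple consequences of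
`λ = (k+1)/2 - (s-k)/(ks-2)` are used).  For `f i ≥ 1`:
(A) both `a (p i), b (p i)` are `1`: `c i = λ f - f (f+1)/2 + a b ≥ g` (concave in `f`: check
`f = 1` : `λ - 1 ≥ g`; `f = k-1`; and `f = k` where `a b = 1` and equality holds);
(B) both are `0`: `c i ≥ λ`, and `c i ≥ 2 λ - 1` if `f i ≥ 2`;
(C) exactly one is `1`: `c i ≥ λ - 1`.
If some nonempty block is of type (B): if it has `f ≥ 2` done; two of them: `2 λ`; else exactly
one, `f i = 1`, and since `Σ f ≥ 3` another block is nonempty, so block `(i+1) % s` is nonempty (as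
in `S_UNUM`) and of type (C): `λ + λ - 1`.
If no nonempty block is of type (B) then going backwards all blocks are nonempty and all are of
type (A) or (C), so every `c i ≥ g` (`λ - 1 ≥ g`), sum `≥ s g = 2 λ - 1`.
(Tested by exhaustive dynamic programming for `3 ≤ k ≤ 7`, `3 ≤ s ≤ k+3`; equality for the full
configuration.) -/
def S_UNUMC : Prop :=
  ∀ (k s : ℕ) (o e a b : ℕ → ℤ), 3 ≤ k → 3 ≤ s → Con k s s o e a b →
    3 ≤ ∑ i ∈ range s, (o i + e i) →
    (QF s o e a b - 2) * ((k : ℤ) * s - 2) ≤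
      ((s : ℤ) * (k + 2) * (k - 1) - 2) * (∑ i ∈ range s, (o i + e i) - 2)

/-! ## Part R: triangle-free graphs satisfy `e ≥ 5 n - 10 α` (Radziszowski and Kreher) -/

/-- `G` has no triangle -/
def TF {V : Type} (G : SimpleGraph V) : Prop :=
  ∀ x y z, G.Adj x y → G.Adj y z → ¬ G.Adj x z

/-- every independent subset of `S` has at most `a` elements -/
def Al {V : Type} (G : SimpleGraph V) (S : Finset V) (a : ℕ) : Prop :=
  ∀ I ⊆ S, Indep G I → I.card ≤ a

/-- the inequality holds for all smaller vertex sets -/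
def IH {V : Type} (G : SimpleGraph V) (n : ℕ) : Prop :=
  ∀ (S : Finset V) (a : ℕ), S.card < n → Al G S a → 10 * S.card ≤ dd G S + 20 * a

/-- `S` without `v` and its neighbours -/
noncomputable def rem {V : Type} (G : SimpleGraph V) (S : Finset V) (v : V) : Finset V :=
  S.filter (fun u => u ≠ v ∧ ¬ G.Adj v u)

/-- sum of the degrees (in `S`) of the neighbours of `v` in `S` -/
noncomputable def zz {V : Type} (G : SimpleGraph V) (S : Finset V) (v : V) : ℕ :=
  ∑ u ∈ S.filter (fun u => G.Adj v u), dg G S u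

/-- deleting a closed neighbourhood.  PROOF: the neighbours of `v` form an independent set (no
triangle), so the number of edges meeting `N[v]` is `zz G S v`; independent sets of `rem G S v` can
be extended by `v`. -/
def S_R0 : Prop :=
  ∀ (V : Type) (G : SimpleGraph V), TF G → ∀ (S : Finset V), ∀ v ∈ S,
    (rem G S v).card + 1 + dg G S v = S.card ∧
    dd G S = dd G (rem G S v) + 2 * zz G S v ∧
    (∀ a, Al G S a → 1 ≤ a ∧ Al G (rem G S v) (a - 1))

/-- a tight set (equality in the inequality) has minimum degree at least two, `Z(u) ≤ 5 d(u) - 5`,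
and if `Z(u) = 5 d(u) - 5` then `rem G S u` is tight as well.
PROOF: for `u ∈ S`, with `d = dg G S u`, `Z = zz G S u`, `IH` for `rem G S u` (smaller) gives
`10 (|S| - 1 - d) ≤ dd S - 2 Z + 20 (a - 1)`, i.e. `10 |S| + 10 + 2 Z ≤ dd S + 20 a + 10 d`.
With `10 |S| = dd S + 20 a` : `Z + 5 ≤ 5 d`.  So `d ≥ 1`, and `Z ≥ d` (each neighbour of `u` in `S`
has degree at least one) gives `d ≥ 2`. The last claim is the equality case. -/
def S_R1 : Prop :=
  ∀ (V : Type) (G : SimpleGraph V), TF G → ∀ (n : ℕ), IH G n → ∀ (S : Finset V) (a : ℕ),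
    S.card ≤ n → Al G S a → 10 * S.card = dd G S + 20 * a → ∀ u ∈ S,
    2 ≤ dg G S u ∧ zz G S u + 5 ≤ 5 * dg G S u ∧
    (zz G S u + 5 = 5 * dg G S u → 1 ≤ a ∧ Al G (rem G S u) (a - 1) ∧
      10 * (rem G S u).card = dd G (rem G S u) + 20 * (a - 1))

/-- a minimal counterexample is cubic and `rem G S v` is tight for every `v`.
PROOF: as in `S_R1`, for `v ∈ S` : `10 |S| + 10 + 2 Z ≤ dd S + 20 a + 10 d`.  As
`10 |S| - dd S - 20 a` is positive and even (`dd` is even) it is `≥ 2`, so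
`Z(v) + 6 ≤ 5 d(v)` for all `v ∈ S`.  Sum over `v ∈ S`: `Σ Z(v) = Σ d(u)²` (double counting), so
`Σ (d(v) - 2) (d(v) - 3) ≤ 0`, all terms are `≥ 0`, hence every degree is `2` or `3` and
`Z(v) = 5 d(v) - 6` for all `v` (as the sum of the slacks vanishes); it follows that
`10 |S| = dd S + 20 a + 2` and that `rem G S v` is tight for all `v`.  If `d(v) = 2`, then `Z = 4`
so both neighbours have degree `2` (all degrees are `≥ 2`); take a neighbour `u` of `v` and its
other neighbour `w ≠ v` in `S`; `w` is not adjacent to `v` (no triangle) so `w ∈ rem G S v`;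
`w` has degree `2` in `S` (it is a neighbour of the degree two vertex `u`), and degree
`≤ 1` in `rem G S v`, contradiction with `S_R1` (minimum degree two in the tight set
`rem G S v`). -/
def S_R2 : Prop :=
  ∀ (V : Type) (G : SimpleGraph V), TF G → ∀ (S : Finset V) (a : ℕ), IH G S.card → Al G S a →
    dd G S + 20 * a < 10 * S.card →
    (∀ v ∈ S, dg G S v = 3) ∧
    (∀ v ∈ S, 1 ≤ a ∧ Al G (rem G S v) (a - 1) ∧
      10 * (rem G S v).card = dd G (rem G S v) + 20 * (a - 1))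

/-- second neighbourhood of `v` in `S` -/
noncomputable def N2 {V : Type} (G : SimpleGraph V) (S : Finset V) (v : V) : Finset V :=
  S.filter (fun u => u ≠ v ∧ ¬ G.Adj v u ∧ ∃ y ∈ S, G.Adj v y ∧ G.Adj y u)

/-- local structure of a cubic minimal counterexample.
PROOF.  All neighbours below are neighbours in `S`.  Every `v ∈ S` has exactly three neighbours.
Write `S_v = rem G S v` (tight, with `a - 1`).
(1) No 4-cycles (first claim): if `v ≠ w` are in `S` and have a common neighbour they are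
nonadjacent (no triangles), then `w ∈ S_v` has degree `≥ 2` in `S_v` (`S_R1`), so at most one of
its three neighbours is in `N(v)`.
(2) Each vertex of `N2(v)` has exactly one neighbour in `N(v)` (its parent), so `|N2(v)| = 6`, the
vertices of `N2(v)` have degree `2` in `S_v`, the other vertices of `S_v` have degree `3`.
Siblings (same parent) are nonadjacent.  For `u ∈ N2(v)`: `zz G S_v u + 5 ≤ 10` gives that at
least one of its two neighbours in `S_v` is in `N2(v)`.  If exactly one, `p`, is in `N2(v)` and the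
other, `q`, is not, then `zz = 5` and `rem G S_v u` is tight by `S_R1`, so it has minimum degree
two; hence the other neighbour `p'` of `p` in `S_v` is not in `N2(v)` (otherwise its degree would
drop to `≤ 1`; note `p' ≠ q`, no triangle).
So in the graph induced on `N2(v)` every vertex has degree 1 or 2, and a vertex of degree 1 has
its neighbour of degree 1.  Let `A` = degree 2 vertices, `B` = degree 1 vertices of this graph.
`A` induces a 2-regular graph without 3- and 4-cycles, so `A = ∅` or `|A| ≥ 5`; `B` induces a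
perfect matching so `|B|` is even; `|A| + |B| = 6`, so `A = ∅` (which is the second claim) or
`|A| = 6`.  In the latter case `dd G (N2 v) = 12`, `P = {v} ∪ N(v) ∪ N2(v)` has 10 vertices and no
edge of `S` leaves `P`.  `IH` for `N2(v)` with `a = 2`: `60 ≤ 12 + 40` is false, so `N2(v)` has an
independent set of 3 elements; with `v` this is an independent set of 4 elements in `P`, so
`4 ≤ a`, `Al G (S \ P) (a - 4)`, and `IH` for `S \ P`: `10 |S| - 100 ≤ (dd S - 30) + 20 a - 80`,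
contradiction with `dd S + 20 a < 10 |S|`. -/
def S_R3a : Prop :=
  ∀ (V : Type) (G : SimpleGraph V), TF G → ∀ (S : Finset V) (a : ℕ), IH G S.card → Al G S a →
    dd G S + 20 * a < 10 * S.card →
    (∀ v ∈ S, dg G S v = 3) →
    (∀ v ∈ S, 1 ≤ a ∧ Al G (rem G S v) (a - 1) ∧
      10 * (rem G S v).card = dd G (rem G S v) + 20 * (a - 1)) →
    (∀ v ∈ S, ∀ w ∈ S, v ≠ w → (S.filter (fun u => G.Adj v u ∧ G.Adj w u)).card ≤ 1) ∧
    (∀ v ∈ S, ∀ u ∈ N2 G S v, dg G (N2 G S v) u = 1)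

/-- the cubic case is impossible.
PROOF.  All neighbours below are neighbours in `S`.  `S` is not empty.
Let `v ∈ S`, `y ∈ N(v)`, `N(y) = {v,u,u'}`.  `N(u) = {y,p,q}` with `p ∈ N2(v)` (partner),
`q ∉ N2(v)`; `N(u') = {y,b,A}` with `b ∈ N2(v)` partner, `A ∉ N2(v)`.  `p ≠ b` (else a
4-cycle).  Let `yp, yb ∈ N(v)` be the parents of `p, b`, both `≠ y` (siblings are nonadjacent).
(PM) (the last hypothesis) for `y`: `N2(y) = (N(v) \ {y}) ∪ {p,q} ∪ {b,A}`; `yp ~ p`, `yb ~ b`, so
`yp ≠ yb`, and the remaining two vertices `q, A` must be partners: `q ~ A`.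
So `N(A) = {u',q,c}`.
(PM) for `u'`: `N2(u') = {v,u} ∪ {yb,b2} ∪ {q,c}` where `N(b) = {u',yb,b2}`; `v ~ yb`, `u ~ q`, so
`b2 ~ c`.
(PM) for `u`: `N2(u) = {v,u'} ∪ {yp,p'} ∪ {A,q2}`, `N(p) = {u,yp,p'}`, `N(q) = {u,A,q2}`:
`v ~ yp`, `u' ~ A`, so `p'` is not adjacent to `A`.
`c ∉ N2(v)`: otherwise `c` has a parent, a partner in `N2(v)` and the two neighbours `A`, `b2`,
which are different (no triangle `A, b, u'`) and not in `N(v) ∪ N2(v)`: four neighbours.
Now `T1 = rem G S v`, `T2 = rem G T1 u` is tight since `zz G T1 u = 2 + 3` (`S_R1`, vertices of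
`N2(v)` have degree 2 in `T1`, the other vertices of `T1` degree 3).  The set removed so
far is `{v} ∪ N(v) ∪ {u,p,q}`.  In `T2`: `A` has degree 2 (neighbours `u', c`), `u'` has degree 2
(neighbours `b, A`), `c` has degree 3 (`c` is not adjacent to `v`, `N(v)`, `u`, `q` (no triangle),
`p` (since `c = p'` is impossible, `p'` is not adjacent to `A`)).  So `zz G T2 A + 5 = 10` and
`T3 = rem G T2 A` is tight.  `b ∈ T3`, but its neighbours are `u'` (removed), `yb` (removed), `b2`: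
degree `≤ 1`, contradiction with `S_R1`. -/
def S_R3b : Prop :=
  ∀ (V : Type) (G : SimpleGraph V), TF G → ∀ (S : Finset V) (a : ℕ), IH G S.card → Al G S a →
    dd G S + 20 * a < 10 * S.card →
    (∀ v ∈ S, dg G S v = 3) →
    (∀ v ∈ S, 1 ≤ a ∧ Al G (rem G S v) (a - 1) ∧
      10 * (rem G S v).card = dd G (rem G S v) + 20 * (a - 1)) →
    (∀ v ∈ S, ∀ w ∈ S, v ≠ w → (S.filter (fun u => G.Adj v u ∧ G.Adj w u)).card ≤ 1) →
    (∀ v ∈ S, ∀ u ∈ N2 G S v, dg G (N2 G S v) u = 1) → False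

/-- PROOF: strong induction on `|S|` with `S_R2`, `S_R3a`, `S_R3b`. -/
def S_RK : Prop :=
  ∀ (V : Type) (G : SimpleGraph V), TF G → ∀ (S : Finset V) (a : ℕ), Al G S a →
    10 * S.card ≤ dd G S + 20 * a

/-! ## Part L: lower bound for large `k` -/

/-- vertices of `S` of colour `i` -/
noncomputable def cl {V : Type} (S : Finset V) (c : V → ℕ) (i : ℕ) : Finset V :=
  S.filter (fun v => c v = i)

/-- ordered nonadjacent pairs of different vertices of the same colour -/
noncomputable def mis {V : Type} (G : SimpleGraph V) (S : Finset V) (c : V → ℕ) : ℕ :=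
  ((S ×ˢ S).filter (fun p => p.1 ≠ p.2 ∧ ¬ G.Adj p.1 p.2 ∧ c p.1 = c p.2)).card

/-- Füredi's stability (complementary form).
PROOF: induction on `s`.  `s = 0`: `S = ∅`.  Step: if `S = ∅` trivial; otherwise choose `x ∈ S` with
minimal `dg G S x`; `V1 = {x} ∪ N_S(x)`, `n1 = |V1| = 1 + dg x`, `S' = S \ V1`; every independent
subset of `S'` has at most `s - 1` elements (add `x`).  Colour `S'` by induction with colours
`< s - 1` and give `V1` the colour `s - 1`.  All degrees in `S` are `≥ n1 - 1`, so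
`e(V1, S') + dd V1 = Σ_{v ∈ V1} dg G S v ≥ n1 (n1 - 1)` (`e` counts ordered pairs in
`V1 × S'`), and `dd S = dd S' + dd V1 + 2 e(V1,S')`, and
`n1 (n1 - 1) = dd V1 + mis(V1)`.  Hence
`dd S ≥ dd S' + 2 n1 (n1 - 1) - dd V1 = dd S' + n1 (n1 - 1) + mis(V1)`. -/
def S_FU : Prop :=
  ∀ (V : Type) (G : SimpleGraph V) (s : ℕ) (S : Finset V),
    (∀ I ⊆ S, Indep G I → I.card ≤ s) →
    ∃ c : V → ℕ, (∀ v ∈ S, c v < s) ∧
      ∑ i ∈ range s, (cl S c i).card * ((cl S c i).card - 1) + mis G S c ≤ dd G S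

/-- number of neighbours of `v` with a different colour -/
noncomputable def cd {V : Type} [Fintype V] (G : SimpleGraph V) (c : V → ℕ) (v : V) : ℕ :=
  (univ.filter (fun u => G.Adj v u ∧ c u ≠ c v)).card

/-- The configuration: `s ≥ 2`, `k` huge, `|V| = k s`, independence number at most `s`, no clique
with `k` vertices, few edges, and a colouring `c` with `s` colours, few edges between the colours
and colour classes of size at least `15 k / 16`. -/
structure Conf {V : Type} [Fintype V] (G : SimpleGraph V) (s k q h : ℕ) (c : V → ℕ) : Prop where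
  hs : 2 ≤ s
  hq : q = 128 * s ^ 2
  hh : h = 8 * s * (4 * s * q) ^ 2
  hk : 16 * s ^ 2 * h ^ 2 ≤ k
  hcard : Fintype.card V = k * s
  hal : ∀ I : Finset V, Indep G I → I.card ≤ s
  hom : ∀ C : Finset V, Clq G C → C.card < k
  hE : dd G univ < s * (k * (k - 1)) + 2 * ((s - 1) * k)
  hc : ∀ v, c v < s
  hcd : ∑ v, cd G c v < 4 * s * k
  hn : ∀ i, i < s → 15 * k ≤ 16 * (cl univ c i).card

/-- PROOF: apply `S_FU` to `S = univ`.  Let `n i` be the class sizes, `Σ n i = k s`.
`Σ n i (n i - 1) = Σ (n i - k)² + s k (k-1)` (in `ℤ`).  So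
`Σ (n i - k)² ≤ dd - s k (k-1) < 2 (s-1) k`, and the number of ordered adjacent pairs with
different colours is `Σ_v cd v = dd - Σ n i (n i - 1) + mis ≤ 2 (dd - Σ n i (n i - 1)) ≤
2 (dd - s k (k-1)) < 4 (s-1) k`.
If `16 n i < 15 k` then `k²/256 ≤ (n i - k)² < 2 s k`, so `k < 512 s`, impossible as
`k ≥ 16 s² h²`. -/
def S_L1 : Prop :=
  ∀ (V : Type) [Fintype V] (G : SimpleGraph V) (s k q h : ℕ), 2 ≤ s → q = 128 * s ^ 2 →
    h = 8 * s * (4 * s * q) ^ 2 → 16 * s ^ 2 * h ^ 2 ≤ k → Fintype.card V = k * s →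
    (∀ I : Finset V, Indep G I → I.card ≤ s) → (∀ C : Finset V, Clq G C → C.card < k) →
    dd G univ < s * (k * (k - 1)) + 2 * ((s - 1) * k) → ∃ c : V → ℕ, Conf G s k q h c

/-- typical vertices of colour `i` -/
noncomputable def ww {V : Type} [Fintype V] (G : SimpleGraph V) (c : V → ℕ) (q k i : ℕ) :
    Finset V := univ.filter (fun v => c v = i ∧ q * cd G c v < k)

/-- atypical vertices -/
noncomputable def xx {V : Type} [Fintype V] (G : SimpleGraph V) (c : V → ℕ) (q k : ℕ) :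
    Finset V := univ.filter (fun v => k ≤ q * cd G c v)

/-- typical vertices of colour `i` which are neither in `S` nor adjacent to a vertex of `S` -/
noncomputable def un {V : Type} [Fintype V] (G : SimpleGraph V) (c : V → ℕ) (q k i : ℕ)
    (S : Finset V) : Finset V := (ww G c q k i).filter (fun w => w ∉ S ∧ ∀ u ∈ S, ¬ G.Adj u w)

/-- an independent set `S` kills at least `|S|` blocks.
PROOF.  Let `T = {v | 8 s h < cd v}`, then `8 s h |T| ≤ Σ cd < 4 s k`, so `2 h |T| < k`.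
Let `J = {i < s | k < h |un i S|}`.  Choose greedily, for `i ∈ J`, a vertex
`w_i ∈ un i S \ T` not adjacent to the vertices chosen before: the vertices chosen before have
other colours and at most `8 s h` neighbours of other colours each, so at most
`s * 8 s h` vertices of `un i S` are excluded in this way, and
`|T| + 8 s² h ≤ k/(2h) + k/(2h)` since `16 s² h² ≤ k`.  (Induction over subsets of `J`.)
The set `S ∪ {w_i | i ∈ J}` is independent and has `|S| + |J|` elements (`w_i ∉ S`, different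
colours), so `|S| + |J| ≤ s`. -/
def S_L2 : Prop :=
  ∀ (V : Type) [Fintype V] (G : SimpleGraph V) (s k q h : ℕ) (c : V → ℕ), Conf G s k q h c →
    ∀ S : Finset V, Indep G S →
      S.card ≤ ((range s).filter (fun i => h * (un G c q k i S).card ≤ k)).card

/-- sizes and cliques.
PROOF.  `|X| k ≤ q Σ cd < 4 s q k` (`X = xx`).  `|ww i| ≥ |cl i| - |X| ≥ 15k/16 - k/16`
(`4 s q = 512 s³ ≤ k/16`).  If `u ≠ v ∈ ww i` are nonadjacent, `S_L2` for `{u,v}` gives
`i' ≠ i`, `i' < s` with `h |un i' {u,v}| ≤ k`; but `|ww i'| ≤ |un i' {u,v}| + cd u + cd v`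
(`ww i'` has colour `i' ≠ i`), `< k/h + 2k/q < k/2`: contradiction with
`|ww i'| ≥ 7k/8`. -/
def S_L3 : Prop :=
  ∀ (V : Type) [Fintype V] (G : SimpleGraph V) (s k q h : ℕ) (c : V → ℕ), Conf G s k q h c →
    (xx G c q k).card < 4 * s * q ∧
    ∀ i, i < s → 7 * k ≤ 8 * (ww G c q k i).card ∧ Clq G (ww G c q k i)

/-- main structural lemma.
PROOF.  `X = xx`, `W i = ww i`.  For `v ∈ X` choose by `S_L2` (for `S = {v}`) a block
`iv v < s` with `h |{w ∈ W (iv v) : w ≁ v}| ≤ k` (note `v ∉ W i`).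
Let `D` = the set of `v ∈ X` for which there is `i ≠ iv v`, `i < s` with
`q |{w ∈ W i : w ≁ v}| ≤ 2k`.  `|D| ≤ 8 s`: one of the two blocks `iv v, i` has a colour different
from `c v`, and at most `2k/q ≤ k/256` of its at least `7k/8` typical vertices are nonadjacent
to `v`, so `cd v ≥ k/2`; and `Σ cd < 4 s k`.
Call `w ∈ W i` generic if (b) `w ~ v` for all `v ∈ D` with `iv v ≠ i` and
`q |{w ∈ W i : w ≁ v}| ≤ 2k`; (c) for all `u ≠ v ∈ X` nonadjacent with
`h |un i {u,v}| ≤ k` : `w ~ u` or `w ~ v`.  The number of nongeneric `w ∈ W i` is at most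
`8 s * 2k/q + |X|² k/h ≤ k/(8s) + k/(8s) = k/(4s)`; in particular generic vertices exist.
For each `i < s` let `w_i` be a generic vertex minimising `m i := |X*(w)|`, where
`X*(w) = {v ∈ X : v ~ w, iv v ≠ i}` for `w ∈ W i`.  Then at least `|W i| - k/(4s)` vertices `w` of
`W i` have `|X*(w)| ≥ m i`.  Let `Y = ∪_i X*(w_i)`, so `|Y| ≤ Σ m i`.  Claim `|Y| ≥ s`.
For `i < s` let `Z i = {v ∈ X \ Y : iv v = i}`.  `Z i ∪ W i` is a clique:
 - `W i` is a clique (`S_L3`);
 - `u ≠ v ∈ Z i` nonadjacent: by `S_L2` the pair kills at least 2 blocks, so some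
   `i' ≠ i`; by (c) `w_{i'} ~ u` or `~ v`, say `u`; then `u ∈ X*(w_{i'}) ⊆ Y` (`iv u = i ≠ i'`),
   contradiction;
 - `v ∈ Z i`, `w ∈ W i` nonadjacent: the pair kills some `i' ≠ i`; as `q cd w < k`,
   `|{x ∈ W i' : x ≁ v}| ≤ |un i' {v,w}| + cd w ≤ k/h + k/q ≤ 2k/q`, so `v ∈ D` and by (b)
   `w_{i'} ~ v`, so `v ∈ Y`, contradiction.
So `|Z i| + |W i| ≤ k - 1` (`Z i ⊆ X` is disjoint from `W i`).  Sum over `i < s`:
`|X \ Y| + Σ |W i| ≤ s k - s`, and `|X| + Σ |W i| = |V| = s k`, hence `|Y| ≥ s`. -/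
def S_L4 : Prop :=
  ∀ (V : Type) [Fintype V] (G : SimpleGraph V) (s k q h : ℕ) (c : V → ℕ), Conf G s k q h c →
    ∃ (iv : V → ℕ) (m : ℕ → ℕ),
      (∀ v ∈ xx G c q k, iv v < s ∧
        h * ((ww G c q k (iv v)).filter (fun w => ¬ G.Adj v w)).card ≤ k) ∧
      (∀ i, i < s → 4 * s * (ww G c q k i).card ≤
        4 * s * ((ww G c q k i).filter (fun w =>
          m i ≤ ((xx G c q k).filter (fun v => G.Adj v w ∧ iv v ≠ i)).card)).card + k) ∧
      s ≤ ∑ i ∈ range s, m i

/-- counting.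
PROOF.  `W = ∪ W i`, `X = xx`, `x = |X|`, `|W i| = k - d i`; `d i ≥ 1` as `W i` is a clique
(`S_L3`, `hom`), `Σ d i = x` (`|X| + Σ |W i| = k s`), so `d i ≤ x`.
`dd G univ ≥ Σ |W i| (|W i| - 1) + 2 Σ_{v ∈ X} |N(v) ∩ W|`.
`|W i| (|W i| - 1) = k(k-1) - 2 k d i + d i (d i + 1)`, sum `≥ s k (k-1) - 2 k x`.
`Σ_{v ∈ X} |N(v) ∩ W (iv v)| ≥ Σ_v (|W (iv v)| - k/h) ≥ x (k - x) - x k/h ≥ x k - x² - k/8`
(`8 x ≤ h`).
`Σ_{v ∈ X} |N(v) ∩ (W \ W (iv v))| = Σ_i Σ_{w ∈ W i} |{v ∈ X : v ~ w, iv v ≠ i}| ≥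
Σ_i (|W i| - k/(4s)) m i ≥ (k - x - k/(4s)) Σ m i ≥ s k - s x - k/4`.
Together `dd ≥ s k (k-1) + 2 s k - 2 x² - 2 s x - 3k/4`, and
`dd < s k (k-1) + 2 (s-1) k` gives `5k/4 < 2 x² + 2 s x`, contradiction with `x < 4 s q = 512 s³`
and `16 s² h² ≤ k`. -/
def S_L5 : Prop :=
  ∀ (V : Type) [Fintype V] (G : SimpleGraph V) (s k q h : ℕ) (c : V → ℕ), Conf G s k q h c →
    False

/-- PROOF: `S_L1` and `S_L5`, `K = 16 s² h²`. -/
def S_LB : Prop :=
  ∀ s : ℕ, 2 ≤ s → ∃ K : ℕ, ∀ k : ℕ, K ≤ k → ∀ (V : Type) [Fintype V] (G : SimpleGraph V),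
    Fintype.card V = k * s → (∀ I : Finset V, Indep G I → I.card ≤ s) →
    (∀ C : Finset V, Clq G C → C.card < k) →
    s * (k * (k - 1)) + 2 * ((s - 1) * k) ≤ dd G univ

/-! ## Part Z: final statements -/

/-- the suggested value is correct for all large `k` (`r` fixed).
PROOF: upper bound from `S_C1, S_C2, S_B1, S_B3` (disjoint cliques).  Lower bound: `S_B4`; let `G`
on `Fin (k (r-1))` have independence number `< r`.  If there is a clique with at least `k`
elements take a subset `C` with exactly `k`: `dd = k (k-1)`,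
`2 ((k+1)/2) (k-2) = k (k-1) - 2`, `S_B2`.  Otherwise `S_LB` with `s = r - 1` and `S_B2` for
`S = univ`: `(k+1)(k s - 2) = s k (k-1) + 2 (s-1) k - 2`. (`K ≥ 3` may be assumed.) -/
def S_Z1 : Prop :=
  ∀ r : ℕ, 3 ≤ r → ∃ K : ℕ, ∀ k : ℕ, K ≤ k → M (k * (r - 1)) r = ((k : ℝ) + 1) / 2

/-- PROOF: `BG k s s`, `s = r - 1`, with `S_UC, S_UA, S_UCON, S_UCNT, S_UNUMC, S_B1, S_B3`. -/
def S_Z2 : Prop :=
  ∀ k r : ℕ, 3 ≤ k → 4 ≤ r → M (k * (r - 1)) r ≤
    ((((r : ℝ) - 1) * ((k : ℝ) + 2) * ((k : ℝ) - 1) - 2) / (2 * ((k : ℝ) * ((r : ℝ) - 1) - 2)))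

/-- PROOF: `BG k s N`, `s = r - 1`, `m = (k-1) s + N`, `1 ≤ N < s`, with `S_UC, S_UA, S_UCON,
S_UCNT, S_UNUM, S_B1s, S_B3`. -/
def S_Z3 : Prop :=
  ∀ k r m : ℕ, 3 ≤ k → 3 ≤ r → (k - 1) * (r - 1) < m → m < k * (r - 1) →
    M m r < ((k : ℝ) + 1) / 2

/-- exact value for `k = 3`.
PROOF: `s = r - 1 ≥ 2`.  Upper bounds: `S_C1, S_C2, S_B1, S_B3` give `M ≤ 2`; for `s ≥ 3`,
`S_Z2` with `k = 3` gives `M ≤ (10 s - 2)/(2 (3 s - 2)) = (5 s - 1)/(3 s - 2)`; for `s = 2`,
`(5 s - 1)/(3 s - 2) = 9/4 ≥ 2`.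
Lower bound: let `G` on `Fin (3 s)` have independence number `≤ s`.  If it has a triangle, `S_B2`
with the triangle gives `m2 ≥ 2`.  Otherwise `S_RK` gives `dd G univ ≥ 30 s - 20 s = 10 s` and
`S_B2` gives `m2 ≥ (5 s - 1)/(3 s - 2)`. -/
def S_Z4 : Prop :=
  ∀ r : ℕ, 3 ≤ r → M (3 * (r - 1)) r = min 2 ((5 * (r : ℝ) - 6) / (3 * (r : ℝ) - 5))

end Pool.Agent.H973.TD
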