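import Pool.Agent.H973.TD.Stm

namespace Pool.Agent.H973.TD

open Finset
open Classical

namespace UAL

/-- successor block -/
theorem nx_inj {s i j : ℕ} (hi : i < s) (hj : j < s) (h : (i + 1) % s = (j + 1) % s) : i = j := by
  rcases Nat.lt_or_ge (i + 1) s with h1 | h1
  · rcases Nat.lt_or_ge (j + 1) s with h2 | h2
    · rw [Nat.mod_eq_of_lt h1, Nat.mod_eq_of_lt h2] at h; omega
    · have : j + 1 = s := by omega
      rw [Nat.mod_eq_of_lt h1, this, Nat.mod_self] at h; omega
  · have h1' : i + 1 = s := by omega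
    rcases Nat.lt_or_ge (j + 1) s with h2 | h2
    · rw [Nat.mod_eq_of_lt h2, h1', Nat.mod_self] at h; omega
    · omega

theorem nx_ne {s i : ℕ} (hs : 2 ≤ s) (hi : i < s) : i ≠ (i + 1) % s := by
  rcases Nat.lt_or_ge (i + 1) s with h1 | h1
  · rw [Nat.mod_eq_of_lt h1]; omega
  · have : i + 1 = s := by omega
    rw [this, Nat.mod_self]; omega

end UAL

theorem uc : S_UC := by
  intro k s N hk hN
  rw [Fintype.card_subtype]
  have h1 : (univ.filter (fun p : Fin s × Fin k => (p.1 : ℕ) < N ∨ (p.2 : ℕ) + 1 < k)).card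
      = ∑ i : Fin s, (univ.filter (fun x : Fin k => (i : ℕ) < N ∨ (x : ℕ) + 1 < k)).card := by
    rw [Finset.card_filter, ← Finset.univ_product_univ, Finset.sum_product]
    apply Finset.sum_congr rfl
    intro i _
    rw [Finset.card_filter]
  rw [h1]
  have h2 : ∀ i : Fin s, (univ.filter (fun x : Fin k => (i : ℕ) < N ∨ (x : ℕ) + 1 < k)).card
      = (k - 1) + if (i : ℕ) < N then 1 else 0 := by
    intro i
    by_cases hi : (i : ℕ) < N
    · simp only [hi, true_or, Finset.filter_true, Finset.card_univ, Fintype.card_fin, if_true]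
      omega
    · simp only [hi, false_or, if_false, add_zero]
      have : (univ.filter (fun x : Fin k => (x : ℕ) + 1 < k)) =
          (univ.filter (fun x : Fin k => (x : ℕ) < k - 1)) := by
        apply Finset.filter_congr
        intro x _
        omega
      rw [this, Fin.card_filter_val_lt]
      omega
  rw [Finset.sum_congr rfl (fun i _ => h2 i), Finset.sum_add_distrib, Finset.sum_const,
    Finset.card_univ, Fintype.card_fin, smul_eq_mul]
  have h3 : ∑ i : Fin s, (if (i : ℕ) < N then 1 else 0) = N := by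
    rw [← Finset.card_filter, Fin.card_filter_val_lt]
    omega
  rw [h3, Nat.mul_comm]

theorem ua : S_UA := by
  intro k s N hk hs hN I hI
  -- blocks with two elements
  set f : ℕ → ℕ := fun i => (I.filter (fun p => (p.1.1 : ℕ) = i)).card with hf
  have hsum : I.card = ∑ i ∈ range s, f i := by
    rw [hf]
    apply Finset.card_eq_sum_card_fiberwise
    intro p _
    simp only [Finset.coe_range, Set.mem_Iio]
    exact p.1.1.2
  -- elements of the same block
  have hsame : ∀ p ∈ I, ∀ q ∈ I, (p.1.1 : ℕ) = (q.1.1 : ℕ) → (p.1.2 : ℕ) < (q.1.2 : ℕ) →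
      (p.1.1 : ℕ) < N ∧ (p.1.2 : ℕ) = 0 ∧ (q.1.2 : ℕ) = 2 := by
    intro p hp q hq h1 h2
    by_contra hc
    apply hI p hp q hq
    rw [BG, SimpleGraph.fromRel_adj]
    refine ⟨?_, Or.inl (Or.inl ⟨h1, h2, hc⟩)⟩
    rintro rfl
    exact lt_irrefl _ h2
  have hext : ∀ p q : BV k s N, (p.1.1 : ℕ) = (q.1.1 : ℕ) → (p.1.2 : ℕ) = (q.1.2 : ℕ) → p = q := by
    intro p q h1 h2
    apply Subtype.ext
    exact Prod.ext (Fin.ext h1) (Fin.ext h2)
  have htwo : ∀ i, f i ≤ 2 := by
    intro i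
    by_contra hc
    push_neg at hc
    obtain ⟨a, b, c, ha, hb, hcc, hab, hac, hbc⟩ := Finset.two_lt_card_iff.mp hc
    rw [Finset.mem_filter] at ha hb hcc
    have ea : ∀ x ∈ I, (x.1.1 : ℕ) = i → ∀ y ∈ I, (y.1.1 : ℕ) = i → x ≠ y →
        ((x.1.2 : ℕ) = 0 ∧ (y.1.2 : ℕ) = 2) ∨ ((x.1.2 : ℕ) = 2 ∧ (y.1.2 : ℕ) = 0) := by
      intro x hx hxi y hy hyi hxy
      rcases lt_trichotomy (x.1.2 : ℕ) (y.1.2 : ℕ) with h | h | h
      · left
        exact (hsame x hx y hy (hxi.trans hyi.symm) h).2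
      · exact absurd (hext x y (hxi.trans hyi.symm) h) hxy
      · right
        obtain ⟨_, h1, h2⟩ := hsame y hy x hx (hyi.trans hxi.symm) h
        exact ⟨h2, h1⟩
    have e1 := ea a ha.1 ha.2 b hb.1 hb.2 hab
    have e2 := ea a ha.1 ha.2 c hcc.1 hcc.2 hac
    have e3 := ea b hb.1 hb.2 c hcc.1 hcc.2 hbc
    omega
  -- a doubled block has an empty successor
  have hdbl : ∀ i, i < s → f i = 2 → f ((i + 1) % s) = 0 := by
    intro i his hi2
    have h1 : 1 < (I.filter (fun p => (p.1.1 : ℕ) = i)).card := by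
      have : f i = (I.filter (fun p => (p.1.1 : ℕ) = i)).card := rfl
      omega
    obtain ⟨a, ha, b, hb, hab⟩ := Finset.one_lt_card.mp h1
    rw [Finset.mem_filter] at ha hb
    -- normalise
    have hex : ∃ p ∈ I, ∃ q ∈ I, (p.1.1 : ℕ) = i ∧ (q.1.1 : ℕ) = i ∧ i < N ∧ (p.1.2 : ℕ) = 0 ∧
        (q.1.2 : ℕ) = 2 := by
      rcases lt_trichotomy (a.1.2 : ℕ) (b.1.2 : ℕ) with h | h | h
      · obtain ⟨h1, h2, h3⟩ := hsame a ha.1 b hb.1 (ha.2.trans hb.2.symm) h
        exact ⟨a, ha.1, b, hb.1, ha.2, hb.2, ha.2 ▸ h1, h2, h3⟩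
      · exact absurd (hext a b (ha.2.trans hb.2.symm) h) hab
      · obtain ⟨h1, h2, h3⟩ := hsame b hb.1 a ha.1 (hb.2.trans ha.2.symm) h
        exact ⟨b, hb.1, a, ha.1, hb.2, ha.2, hb.2 ▸ h1, h2, h3⟩
    obtain ⟨p, hp, q, hq, hpi, hqi, hiN, hp0, hq2⟩ := hex
    by_contra hne
    have h2 : 0 < (I.filter (fun p => (p.1.1 : ℕ) = (i + 1) % s)).card :=
      Nat.pos_of_ne_zero hne
    obtain ⟨y, hy⟩ := Finset.card_pos.mp h2
    rw [Finset.mem_filter] at hy
    have hnei : i ≠ (i + 1) % s := UAL.nx_ne hs his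
    rcases Nat.mod_two_eq_zero_or_one (y.1.2 : ℕ) with h | h
    · apply hI q hq y hy.1
      rw [BG, SimpleGraph.fromRel_adj]
      refine ⟨?_, Or.inl (Or.inr ⟨by rw [hqi]; exact hiN, by rw [hqi]; exact hy.2, ?_,
        Or.inr ⟨hq2, h⟩⟩)⟩
      · rintro rfl
        exact hnei (hqi.symm.trans hy.2)
      · rw [hqi, hy.2]
        exact hnei
    · apply hI p hp y hy.1
      rw [BG, SimpleGraph.fromRel_adj]
      refine ⟨?_, Or.inl (Or.inr ⟨by rw [hpi]; exact hiN, by rw [hpi]; exact hy.2, ?_,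
        Or.inl ⟨hp0, h⟩⟩)⟩
      · rintro rfl
        exact hnei (hpi.symm.trans hy.2)
      · rw [hpi, hy.2]
        exact hnei
  -- counting
  set D := (range s).filter (fun i => f i = 2) with hD
  set Z := (range s).filter (fun i => f i = 0) with hZ
  have hDZ : D.card ≤ Z.card := by
    apply Finset.card_le_card_of_injOn (fun i => (i + 1) % s)
    · intro i hi
      rw [hD, Finset.mem_coe, Finset.mem_filter, Finset.mem_range] at hi
      rw [hZ, Finset.mem_coe, Finset.mem_filter, Finset.mem_range]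
      exact ⟨Nat.mod_lt _ (by omega), hdbl i hi.1 hi.2⟩
    · intro i hi j hj hij
      rw [hD, Finset.mem_coe, Finset.mem_filter, Finset.mem_range] at hi hj
      exact UAL.nx_inj hi.1 hj.1 hij
  have hkey : ∑ i ∈ range s, f i + Z.card ≤ s + D.card := by
    rw [hZ, hD, Finset.card_filter, Finset.card_filter, ← Finset.sum_add_distrib]
    calc ∑ i ∈ range s, (f i + if f i = 0 then 1 else 0)
        ≤ ∑ i ∈ range s, (1 + if f i = 2 then 1 else 0) := by
          apply Finset.sum_le_sum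
          intro i _
          have := htwo i
          interval_cases h : f i <;> simp
      _ = s + ∑ i ∈ range s, (if f i = 2 then 1 else 0) := by
          rw [Finset.sum_add_distrib, Finset.sum_const, Finset.card_range, smul_eq_mul, mul_one]
  omega

end Pool.Agent.H973.TD
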