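import Pool.Agent.H973.TD.Stm

/-!
Upper bound for the number of ordered adjacent pairs in the block graph.
-/

namespace Pool.Agent.H973.TD

open Finset
open Classical

namespace UCntL

variable {k s N : ℕ}

/-- the elements of block `i` -/
noncomputable def blk (F : Finset (BV k s N)) (i : ℕ) : Finset (BV k s N) :=
  F.filter (fun p => (p.1.1 : ℕ) = i)

/-- adjacent pairs in the same block -/
noncomputable def SA (F : Finset (BV k s N)) : Finset (BV k s N × BV k s N) :=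
  (F ×ˢ F).filter (fun x => (x.1.1.1 : ℕ) = (x.2.1.1 : ℕ) ∧ x.1 ≠ x.2 ∧
    ¬ ((x.1.1.1 : ℕ) < N ∧ (x.1.1.2 : ℕ) = 0 ∧ (x.2.1.2 : ℕ) = 2) ∧
    ¬ ((x.1.1.1 : ℕ) < N ∧ (x.2.1.2 : ℕ) = 0 ∧ (x.1.1.2 : ℕ) = 2))

/-- adjacent pairs, second element in the next block -/
noncomputable def SB (F : Finset (BV k s N)) : Finset (BV k s N × BV k s N) :=
  (F ×ˢ F).filter (fun x => (x.1.1.1 : ℕ) < N ∧ (x.2.1.1 : ℕ) = ((x.1.1.1 : ℕ) + 1) % s ∧
    (((x.1.1.2 : ℕ) = 0 ∧ (x.2.1.2 : ℕ) % 2 = 1) ∨ ((x.1.1.2 : ℕ) = 2 ∧ (x.2.1.2 : ℕ) % 2 = 0)))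

theorem ext_of {p q : BV k s N} (h1 : (p.1.1 : ℕ) = (q.1.1 : ℕ)) (h2 : (p.1.2 : ℕ) = (q.1.2 : ℕ)) :
    p = q := Subtype.ext (Prod.ext (Fin.ext h1) (Fin.ext h2))

theorem card_blk (F : Finset (BV k s N)) (i : ℕ) : ((blk F i).card : ℤ) = oc F i + ec F i := by
  unfold oc ec blk
  rw [← Nat.cast_add, ← Finset.card_filter_add_card_filter_not
    (s := F.filter (fun p => (p.1.1 : ℕ) = i)) (fun p => (p.1.2 : ℕ) % 2 = 1),
    Finset.filter_filter, Finset.filter_filter]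
  congr 3
  refine Finset.filter_congr fun p _ => ?_
  constructor
  · rintro ⟨h1, h2⟩
    exact ⟨h1, by omega⟩
  · rintro ⟨h1, h2⟩
    exact ⟨h1, by omega⟩

theorem main_sub (F : Finset (BV k s N)) :
    ((F ×ˢ F).filter (fun p => (BG k s N).Adj p.1 p.2)) ⊆
      SA F ∪ (SB F ∪ (SB F).image Prod.swap) := by
  intro x hx
  rw [mem_filter, mem_product] at hx
  obtain ⟨⟨h1, h2⟩, hadj⟩ := hx
  rw [BG, SimpleGraph.fromRel_adj] at hadj
  obtain ⟨hne, hrel⟩ := hadj
  rw [mem_union, mem_union]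
  rcases hrel with hr | hr
  · rcases hr with ⟨hb, hl, hn⟩ | ⟨ha, hb, _, hc⟩
    · left
      rw [SA, mem_filter, mem_product]
      exact ⟨⟨h1, h2⟩, hb, hne, hn, by omega⟩
    · right; left
      rw [SB, mem_filter, mem_product]
      exact ⟨⟨h1, h2⟩, ha, hb, hc⟩
  · rcases hr with ⟨hb, hl, hn⟩ | ⟨ha, hb, _, hc⟩
    · left
      rw [SA, mem_filter, mem_product]
      refine ⟨⟨h1, h2⟩, hb.symm, hne, by omega, ?_⟩
      rintro ⟨h3, h4, h5⟩
      exact hn ⟨hb ▸ h3, h4, h5⟩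
    · right; right
      rw [mem_image]
      refine ⟨(x.2, x.1), ?_, rfl⟩
      rw [SB, mem_filter, mem_product]
      exact ⟨⟨h2, h1⟩, ha, hb, hc⟩

theorem fib (F : Finset (BV k s N)) (T : Finset (BV k s N × BV k s N)) :
    T.card = ∑ i ∈ range s, (T.filter (fun x => (x.1.1.1 : ℕ) = i)).card := by
  refine Finset.card_eq_sum_card_fiberwise fun x _ => ?_
  exact Finset.mem_coe.2 (mem_range.2 x.1.1.1.2)

theorem SA_le (F : Finset (BV k s N)) (i : ℕ) :
    (((SA F).filter (fun x => (x.1.1.1 : ℕ) = i)).card : ℤ) + 2 * (al F i * be F i) ≤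
      (oc F i + ec F i) * (oc F i + ec F i - 1) := by
  have hsub : (SA F).filter (fun x => (x.1.1.1 : ℕ) = i) ⊆ (blk F i).offDiag := by
    intro x hx
    rw [mem_filter, SA, mem_filter, mem_product] at hx
    obtain ⟨⟨⟨h1, h2⟩, hb, hne, _, _⟩, hi⟩ := hx
    rw [mem_offDiag, blk, mem_filter, mem_filter]
    exact ⟨⟨h1, hi⟩, ⟨h2, by omega⟩, hne⟩
  have hoff : (((blk F i).offDiag).card : ℤ) = (oc F i + ec F i) * (oc F i + ec F i - 1) := by
    rw [offDiag_card, ← card_blk, Nat.cast_sub (Nat.le_mul_self _)]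
    push_cast
    ring
  rw [← hoff]
  by_cases ha : i < N ∧ ∃ p ∈ F, (p.1.1 : ℕ) = i ∧ (p.1.2 : ℕ) = 0
  · by_cases hb : i < N ∧ ∃ p ∈ F, (p.1.1 : ℕ) = i ∧ (p.1.2 : ℕ) = 2
    · have e1 : al F i = 1 := if_pos ha
      have e2 : be F i = 1 := if_pos hb
      rw [e1, e2]
      obtain ⟨hiN, p, hp, hpi, hp0⟩ := ha
      obtain ⟨_, q, hq, hqi, hq2⟩ := hb
      have hpq : p ≠ q := by
        rintro rfl
        omega
      have hd : Disjoint ((SA F).filter (fun x => (x.1.1.1 : ℕ) = i)) {(p, q), (q, p)} := by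
        rw [Finset.disjoint_left]
        intro x hx hx2
        rw [mem_filter, SA, mem_filter] at hx
        obtain ⟨⟨_, _, _, h3, h4⟩, hi⟩ := hx
        rw [mem_insert, mem_singleton] at hx2
        rcases hx2 with rfl | rfl
        · exact h3 ⟨by omega, hp0, hq2⟩
        · exact h4 ⟨by omega, hp0, hq2⟩
      have hc2 : ({(p, q), (q, p)} : Finset (BV k s N × BV k s N)).card = 2 := by
        rw [card_pair]
        intro h
        exact hpq (Prod.ext_iff.1 h).1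
      have hle := card_le_card (union_subset hsub (t := {(p, q), (q, p)}) (by
        intro x hx
        rw [mem_insert, mem_singleton] at hx
        rw [mem_offDiag, blk, mem_filter, mem_filter]
        rcases hx with rfl | rfl
        · exact ⟨⟨hp, hpi⟩, ⟨hq, hqi⟩, hpq⟩
        · exact ⟨⟨hq, hqi⟩, ⟨hp, hpi⟩, hpq.symm⟩))
      rw [card_union_of_disjoint hd, hc2] at hle
      push_cast [← @Nat.cast_le ℤ] at hle
      linarith
    · have e2 : be F i = 0 := if_neg hb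
      rw [e2, mul_zero, mul_zero, add_zero]
      exact_mod_cast card_le_card hsub
  · have e1 : al F i = 0 := if_neg ha
    rw [e1, zero_mul, mul_zero, add_zero]
    exact_mod_cast card_le_card hsub

/-- pairs with given first element -/
theorem SBv_le (F : Finset (BV k s N)) (i v r : ℕ) (hiN : i < N) (G : Finset (BV k s N))
    (a : ℤ) (ha : a = if i < N ∧ ∃ p ∈ F, (p.1.1 : ℕ) = i ∧ (p.1.2 : ℕ) = v then 1 else 0) :
    (((F ×ˢ G).filter (fun x => (x.1.1.1 : ℕ) = i ∧ (x.1.1.2 : ℕ) = v)).card : ℤ) ≤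
      a * (G.card : ℤ) := by
  by_cases h : i < N ∧ ∃ p ∈ F, (p.1.1 : ℕ) = i ∧ (p.1.2 : ℕ) = v
  · rw [if_pos h] at ha
    rw [ha, one_mul]
    have : ((F ×ˢ G).filter (fun x => (x.1.1.1 : ℕ) = i ∧ (x.1.1.2 : ℕ) = v)).card ≤ G.card := by
      refine card_le_card_of_injOn Prod.snd ?_ ?_
      · intro x hx
        rw [mem_coe, mem_filter, mem_product] at hx
        exact hx.1.2
      · intro x hx y hy hxy
        rw [mem_coe, mem_filter] at hx hy
        exact Prod.ext (ext_of (hx.2.1.trans hy.2.1.symm) (hx.2.2.trans hy.2.2.symm)) hxy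
    exact_mod_cast this
  · rw [if_neg h] at ha
    rw [ha, zero_mul]
    have : (F ×ˢ G).filter (fun x => (x.1.1.1 : ℕ) = i ∧ (x.1.1.2 : ℕ) = v) = ∅ := by
      rw [Finset.filter_eq_empty_iff]
      rintro x hx ⟨h1, h2⟩
      exact h ⟨hiN, x.1, (mem_product.1 hx).1, h1, h2⟩
    rw [this, card_empty]
    exact le_refl _

theorem SB_le (F : Finset (BV k s N)) (i : ℕ) :
    (((SB F).filter (fun x => (x.1.1.1 : ℕ) = i)).card : ℤ) ≤
      al F i * oc F ((i + 1) % s) + be F i * ec F ((i + 1) % s) := by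
  by_cases hiN : i < N
  · have h0 := SBv_le F i 0 0 hiN
      (F.filter (fun p => (p.1.1 : ℕ) = (i + 1) % s ∧ (p.1.2 : ℕ) % 2 = 1)) (al F i) rfl
    have h2 := SBv_le F i 2 0 hiN
      (F.filter (fun p => (p.1.1 : ℕ) = (i + 1) % s ∧ (p.1.2 : ℕ) % 2 = 0)) (be F i) rfl
    have hsub : (SB F).filter (fun x => (x.1.1.1 : ℕ) = i) ⊆
        (F ×ˢ (F.filter (fun p => (p.1.1 : ℕ) = (i + 1) % s ∧ (p.1.2 : ℕ) % 2 = 1))).filter
          (fun x => (x.1.1.1 : ℕ) = i ∧ (x.1.1.2 : ℕ) = 0) ∪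
        (F ×ˢ (F.filter (fun p => (p.1.1 : ℕ) = (i + 1) % s ∧ (p.1.2 : ℕ) % 2 = 0))).filter
          (fun x => (x.1.1.1 : ℕ) = i ∧ (x.1.1.2 : ℕ) = 2) := by
      intro x hx
      rw [mem_filter, SB, mem_filter, mem_product] at hx
      obtain ⟨⟨⟨h1, h2⟩, _, hb, hc⟩, hi⟩ := hx
      rw [hi] at hb
      rw [mem_union, mem_filter, mem_filter, mem_product, mem_product, mem_filter, mem_filter]
      rcases hc with ⟨h3, h4⟩ | ⟨h3, h4⟩
      · exact Or.inl ⟨⟨h1, h2, hb, h4⟩, hi, h3⟩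
      · exact Or.inr ⟨⟨h1, h2, hb, h4⟩, hi, h3⟩
    have h3 := (card_le_card hsub).trans (card_union_le _ _)
    rw [← @Nat.cast_le ℤ, Nat.cast_add] at h3
    exact h3.trans (add_le_add h0 h2)
  · have : (SB F).filter (fun x => (x.1.1.1 : ℕ) = i) = ∅ := by
      rw [Finset.filter_eq_empty_iff]
      rintro x hx h1
      rw [SB, mem_filter] at hx
      exact hiN (h1 ▸ hx.2.1)
    rw [this, card_empty]
    have e1 : al F i = 0 := if_neg (fun h => hiN h.1)
    have e2 : be F i = 0 := if_neg (fun h => hiN h.1)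
    rw [e1, e2]
    simp

end UCntL

theorem ucnt : S_UCNT := by
  intro k s N _ _ _ F
  have h1 : dd (BG k s N) F ≤ (UCntL.SA F).card + ((UCntL.SB F).card + (UCntL.SB F).card) := by
    unfold dd
    refine (card_le_card (UCntL.main_sub F)).trans ((card_union_le _ _).trans ?_)
    refine Nat.add_le_add_left ((card_union_le _ _).trans ?_) _
    exact Nat.add_le_add_left card_image_le _
  have h2 : (dd (BG k s N) F : ℤ) ≤ ((UCntL.SA F).card : ℤ) +
      (((UCntL.SB F).card : ℤ) + ((UCntL.SB F).card : ℤ)) := by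
    exact_mod_cast h1
  refine h2.trans ?_
  rw [UCntL.fib F (UCntL.SA F), UCntL.fib F (UCntL.SB F)]
  push_cast
  unfold QF
  rw [← Finset.sum_add_distrib, ← Finset.sum_add_distrib]
  refine Finset.sum_le_sum fun i _ => ?_
  have a1 := UCntL.SA_le F i
  have a2 := UCntL.SB_le F i
  linarith

end Pool.Agent.H973.TD
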