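import Pool.Agent.H973.TD.Stm

/-!
# Counting constraints in the block graph
-/

namespace Pool.Agent.H973.TD

open Finset
open Classical

namespace UConL

/-- indices of the elements of `F` in block `i` -/
noncomputable def J {k s N : ℕ} (F : Finset (BV k s N)) (i : ℕ) : Finset ℕ :=
  (range k).filter (fun j => ∃ p ∈ F, (p.1.1 : ℕ) = i ∧ (p.1.2 : ℕ) = j)

lemma parity_card (k : ℕ) : ((range k).filter (fun j => j % 2 = 1)).card = k / 2 ∧
    ((range k).filter (fun j => j % 2 = 0)).card = (k + 1) / 2 := by
  induction k with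
  | zero => simp
  | succ n ih =>
    obtain ⟨h1, h2⟩ := ih
    rw [range_add_one, filter_insert, filter_insert]
    have hn : n ∉ range n := by simp
    rcases Nat.mod_two_eq_zero_or_one n with h | h
    · rw [if_neg (by omega), if_pos h, card_insert_of_notMem (by simp), h1, h2]
      omega
    · rw [if_pos h, if_neg (by omega), card_insert_of_notMem (by simp), h1, h2]
      omega

lemma card_eq {k s N : ℕ} (F : Finset (BV k s N)) (i : ℕ) (P : ℕ → Prop)
    [DecidablePred P] [DecidablePred fun p : BV k s N => (p.1.1 : ℕ) = i ∧ P (p.1.2 : ℕ)] :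
    (F.filter (fun p => (p.1.1 : ℕ) = i ∧ P (p.1.2 : ℕ))).card = ((J F i).filter P).card := by
  have himg : (F.filter (fun p => (p.1.1 : ℕ) = i ∧ P (p.1.2 : ℕ))).image
      (fun p => (p.1.2 : ℕ)) = (J F i).filter P := by
    ext j
    unfold J
    simp only [mem_image, mem_filter, mem_range]
    constructor
    · rintro ⟨p, ⟨hp, hi, hP⟩, rfl⟩
      exact ⟨⟨p.1.2.isLt, p, hp, hi, rfl⟩, hP⟩
    · rintro ⟨⟨_, p, hp, hi, rfl⟩, hP⟩
      exact ⟨p, ⟨hp, hi, hP⟩, rfl⟩
  rw [← himg, card_image_of_injOn]
  intro p hp q hq hpq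
  simp only [coe_filter, Set.mem_ofPred_eq] at hp hq
  apply Subtype.ext
  apply Prod.ext
  · exact Fin.ext (hp.2.1.trans hq.2.1.symm)
  · exact Fin.ext hpq

lemma oc_eq {k s N : ℕ} (F : Finset (BV k s N)) (i : ℕ) :
    oc F i = (((J F i).filter (fun j => j % 2 = 1)).card : ℤ) := by
  unfold oc
  rw [card_eq F i (fun j => j % 2 = 1)]

lemma ec_eq {k s N : ℕ} (F : Finset (BV k s N)) (i : ℕ) :
    ec F i = (((J F i).filter (fun j => j % 2 = 0)).card : ℤ) := by
  unfold ec
  rw [card_eq F i (fun j => j % 2 = 0)]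

lemma sum_eq {k s N : ℕ} (F : Finset (BV k s N)) (i : ℕ) :
    oc F i + ec F i = ((J F i).card : ℤ) := by
  rw [oc_eq, ec_eq]
  have h := card_filter_add_card_filter_not (s := J F i) (fun j => j % 2 = 1)
  have h2 : (J F i).filter (fun j => ¬ j % 2 = 1) = (J F i).filter (fun j => j % 2 = 0) := by
    apply filter_congr
    intro j _
    omega
  rw [h2] at h
  exact_mod_cast h

lemma J_sub {k s N : ℕ} (F : Finset (BV k s N)) (i : ℕ) : J F i ⊆ range k := filter_subset _ _

lemma mem_J {k s N : ℕ} {F : Finset (BV k s N)} {i j : ℕ} :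
    j ∈ J F i ↔ ∃ p ∈ F, (p.1.1 : ℕ) = i ∧ (p.1.2 : ℕ) = j := by
  unfold J
  rw [mem_filter, mem_range]
  constructor
  · rintro ⟨_, h⟩
    exact h
  · rintro ⟨p, hp, hi, rfl⟩
    exact ⟨p.1.2.isLt, p, hp, hi, rfl⟩

lemma al_one {k s N : ℕ} {F : Finset (BV k s N)} {i : ℕ} (h : i < N) (h0 : 0 ∈ J F i) :
    al F i = 1 := by
  unfold al
  rw [if_pos ⟨h, mem_J.1 h0⟩]

lemma be_one {k s N : ℕ} {F : Finset (BV k s N)} {i : ℕ} (h : i < N) (h0 : 2 ∈ J F i) :
    be F i = 1 := by
  unfold be
  rw [if_pos ⟨h, mem_J.1 h0⟩]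

lemma lt_of_last {k s N : ℕ} {F : Finset (BV k s N)} {i j : ℕ} (h : j ∈ J F i) (hj : k ≤ j + 1) :
    i < N := by
  obtain ⟨p, _, hi, h2⟩ := mem_J.1 h
  rcases p.2 with h3 | h3
  · omega
  · omega

lemma abe {k s N : ℕ} (F : Finset (BV k s N)) (i : ℕ) : al F i + be F i ≤ ec F i := by
  rw [ec_eq]
  unfold al be
  split_ifs with h1 h2 h2
  · have : ({0, 2} : Finset ℕ) ⊆ (J F i).filter (fun j => j % 2 = 0) := by
      intro j hj
      rw [mem_insert, mem_singleton] at hj
      rw [mem_filter]
      rcases hj with rfl | rfl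
      · exact ⟨mem_J.2 h1.2, rfl⟩
      · exact ⟨mem_J.2 h2.2, rfl⟩
    have h3 := card_le_card this
    have h4 : ({0, 2} : Finset ℕ).card = 2 := rfl
    omega
  · have : ({0} : Finset ℕ) ⊆ (J F i).filter (fun j => j % 2 = 0) := by
      intro j hj
      rw [mem_singleton] at hj
      rw [mem_filter, hj]
      exact ⟨mem_J.2 h1.2, rfl⟩
    have h3 := card_le_card this
    rw [card_singleton] at h3
    omega
  · have : ({2} : Finset ℕ) ⊆ (J F i).filter (fun j => j % 2 = 0) := by
      intro j hj
      rw [mem_singleton] at hj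
      rw [mem_filter, hj]
      exact ⟨mem_J.2 h2.2, rfl⟩
    have h3 := card_le_card this
    rw [card_singleton] at h3
    omega
  · positivity

end UConL

open UConL in
theorem ucon : S_UCON := by
  intro k s N hk hs hN F
  constructor
  · refine ⟨?_, ?_, ?_, ?_, ?_, ?_, ?_, ?_, ?_, ?_, ?_, ?_⟩
    · intro i; rw [oc_eq]; positivity
    · intro i; rw [ec_eq]; positivity
    · intro i
      rw [oc_eq]
      have h1 := card_le_card (filter_subset_filter (fun j => j % 2 = 1) (J_sub F i))
      rw [(parity_card k).1] at h1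
      omega
    · intro i
      rw [ec_eq]
      have h1 := card_le_card (filter_subset_filter (fun j => j % 2 = 0) (J_sub F i))
      rw [(parity_card k).2] at h1
      omega
    · intro i
      rw [sum_eq]
      have h1 := card_le_card (J_sub F i)
      rw [card_range] at h1
      exact_mod_cast h1
    · intro i; unfold al; split_ifs <;> simp
    · intro i; unfold be; split_ifs <;> simp
    · intro i; exact abe F i
    · intro i hi; unfold al; rw [if_neg (by omega)]
    · intro i hi; unfold be; rw [if_neg (by omega)]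
    · intro i _ h
      rw [sum_eq] at h
      have hc : (J F i).card = (range k).card := by
        rw [card_range]; exact_mod_cast h
      have hJ : J F i = range k := eq_of_subset_of_card_le (J_sub F i) hc.ge
      have h0 : ∀ j, j < k → j ∈ J F i := fun j hj => by rw [hJ]; exact mem_range.2 hj
      have hi : i < N := lt_of_last (h0 (k - 1) (by omega)) (by omega)
      exact ⟨hi, al_one hi (h0 0 (by omega)), be_one hi (h0 2 (by omega))⟩
    · intro i hk3 h
      rw [ec_eq] at h
      have hsub : (J F i).filter (fun j => j % 2 = 0) ⊆ {0, 2} := by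
        intro j hj
        rw [mem_filter] at hj
        have := mem_range.1 (J_sub F i hj.1)
        rw [mem_insert, mem_singleton]
        omega
      have hc : ({0, 2} : Finset ℕ).card ≤ ((J F i).filter (fun j => j % 2 = 0)).card := by
        have h4 : ({0, 2} : Finset ℕ).card = 2 := rfl
        rw [h4]
        omega
      have hE := eq_of_subset_of_card_le hsub hc
      have h0 : 0 ∈ J F i := by
        have : 0 ∈ (J F i).filter (fun j => j % 2 = 0) := by rw [hE]; simp
        exact (mem_filter.1 this).1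
      have h2 : 2 ∈ J F i := by
        have : 2 ∈ (J F i).filter (fun j => j % 2 = 0) := by rw [hE]; simp
        exact (mem_filter.1 this).1
      have hi : i < N := lt_of_last h2 (by omega)
      exact ⟨al_one hi h0, be_one hi h2⟩
  · have h1 : ∀ p ∈ F, (p.1.1 : ℕ) ∈ range s := fun p _ => mem_range.2 p.1.1.isLt
    rw [card_eq_sum_card_fiberwise h1]
    push_cast
    refine sum_congr rfl fun i _ => ?_
    rw [sum_eq]
    have h2 := card_eq F i (fun _ => True)
    have h3 : (J F i).filter (fun _ => True) = J F i := filter_true_of_mem (fun _ _ => trivial)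
    rw [h3] at h2
    rw [← h2]
    simp only [and_true]

end Pool.Agent.H973.TD
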