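import Pool.Agent.H973.TD.Stm

set_option autoImplicit false

/-!
# Numerical lemma, path case
-/

namespace Pool.Agent.H973.TD

open Finset

namespace UNumL

/-- contribution of a block -/
def cc (k o e a b A B : ℤ) : ℤ :=
  (k + 1) * (o + e) - (o + e) * (o + e - 1) + 2 * (a * b) - 2 * (A * o + B * e)

/-- the local constraints -/
structure Loc (k o e a b : ℤ) : Prop where
  hk : 3 ≤ k
  o0 : 0 ≤ o
  e0 : 0 ≤ e
  o1 : 2 * o ≤ k
  e1 : 2 * e ≤ k + 1
  oe : o + e ≤ k
  a01 : a = 0 ∨ a = 1
  b01 : b = 0 ∨ b = 1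
  abe : a + b ≤ e
  full : o + e = k → a = 1 ∧ b = 1
  three : k = 3 → e = 2 → a = 1 ∧ b = 1

variable {k o e a b A B : ℤ}

theorem Loc.ab0 (h : Loc k o e a b) : 0 ≤ a * b := by
  rcases h.a01 with h1 | h1 <;> rcases h.b01 with h2 | h2 <;> simp [h1, h2]

theorem Loc.zero (h : Loc k o e a b) (hf : o + e = 0) : a = 0 ∧ b = 0 := by
  have h1 := h.o0
  have h2 := h.e0
  have h3 := h.abe
  rcases h.a01 with h4 | h4 <;> rcases h.b01 with h5 | h5 <;> constructor <;> omega

theorem Loc.c0 (h : Loc k o e a b) (hf : o + e = 0) : cc k o e a b A B = 0 := by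
  have h1 := h.o0
  have h2 := h.e0
  have ho : o = 0 := by omega
  have he : e = 0 := by omega
  obtain ⟨ha, hb⟩ := h.zero hf
  simp [cc, ho, he, ha, hb]

theorem Loc.cA (h : Loc k o e a b) (hf : 1 ≤ o + e) : 2 ≤ cc k o e a b 1 1 := by
  have hk := h.hk
  have h1 : cc k o e a b 1 1 = (o + e) * (k - (o + e)) + 2 * (a * b) := by
    unfold cc
    ring
  rw [h1]
  by_cases hfk : o + e = k
  · obtain ⟨ha, hb⟩ := h.full hfk
    rw [ha, hb, hfk]
    simp
  · have h2 : o + e ≤ k - 1 := by
      have := h.oe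
      omega
    have h3 := h.ab0
    nlinarith

theorem Loc.cB1 (h : Loc k o e a b) (hf : 1 ≤ o + e) : k + 1 ≤ cc k o e a b 0 0 := by
  have hk := h.hk
  have h1 : cc k o e a b 0 0 = (o + e) * (k + 2 - (o + e)) + 2 * (a * b) := by
    unfold cc
    ring
  rw [h1]
  have h2 := h.oe
  have h3 := h.ab0
  nlinarith

theorem Loc.cB2 (h : Loc k o e a b) (hf : 2 ≤ o + e) : 2 * k ≤ cc k o e a b 0 0 := by
  have hk := h.hk
  have h1 : cc k o e a b 0 0 = (o + e) * (k + 2 - (o + e)) + 2 * (a * b) := by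
    unfold cc
    ring
  rw [h1]
  have h2 := h.oe
  have h3 := h.ab0
  nlinarith

theorem Loc.key (h : Loc k o e a b) (hf : 3 ≤ o + e) :
    2 * k + 1 ≤ (o + e) * (k + 2 - (o + e)) + 2 * (a * b) := by
  have hk := h.hk
  by_cases hfk : o + e = k
  · obtain ⟨ha, hb⟩ := h.full hfk
    rw [ha, hb, hfk]
    nlinarith
  · have h2 : o + e ≤ k - 1 := by
      have := h.oe
      omega
    have h3 := h.ab0
    nlinarith [mul_nonneg (by omega : (0 : ℤ) ≤ o + e - 3) (by omega : (0 : ℤ) ≤ k - 1 - (o + e))]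

theorem Loc.cB3 (h : Loc k o e a b) (hf : 3 ≤ o + e) : 2 * k + 1 ≤ cc k o e a b 0 0 := by
  have h1 : cc k o e a b 0 0 = (o + e) * (k + 2 - (o + e)) + 2 * (a * b) := by
    unfold cc
    ring
  rw [h1]
  exact h.key hf

theorem Loc.cC2 (h : Loc k o e a b) (hA : (A = 1 ∧ B = 0) ∨ (A = 0 ∧ B = 1)) (hf : 2 ≤ o + e) :
    k ≤ cc k o e a b A B := by
  have hk := h.hk
  have h1 : cc k o e a b A B = (o + e) * (k + 2 - (o + e)) + 2 * (a * b) - 2 * (A * o + B * e) := by
    unfold cc
    ring
  have ho := h.o1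
  have he := h.e1
  have hB2 : 2 * k ≤ (o + e) * (k + 2 - (o + e)) + 2 * (a * b) := by
    have h2 := h.oe
    have h3 := h.ab0
    nlinarith
  rw [h1]
  rcases hA with ⟨hA, hB⟩ | ⟨hA, hB⟩
  · rw [hA, hB]
    linarith
  · rw [hA, hB]
    by_cases h3 : 3 ≤ o + e
    · have := h.key h3
      linarith
    · have hf2 : o + e = 2 := by omega
      have h0 := h.o0
      have he2 : e ≤ 2 := by omega
      by_cases hk4 : 4 ≤ k
      · linarith
      · have hk3 : k = 3 := by omega
        by_cases hee : e = 2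
        · obtain ⟨ha, hb⟩ := h.three hk3 hee
          rw [ha, hb, hf2, hk3, hee]
          norm_num
        · have : e ≤ 1 := by omega
          linarith

theorem Loc.cC1 (h : Loc k o e a b) (hA : (A = 1 ∧ B = 0) ∨ (A = 0 ∧ B = 1)) (hf : 1 ≤ o + e) :
    k - 1 ≤ cc k o e a b A B := by
  by_cases h2 : 2 ≤ o + e
  · have := h.cC2 hA h2
    omega
  · have hf1 : o + e = 1 := by omega
    have hk := h.hk
    have h0 := h.o0
    have h1 := h.e0
    have h3 := h.ab0
    have h4 : cc k o e a b A B =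
        (o + e) * (k + 2 - (o + e)) + 2 * (a * b) - 2 * (A * o + B * e) := by
      unfold cc
      ring
    rw [h4, hf1]
    rcases hA with ⟨hA, hB⟩ | ⟨hA, hB⟩
    · rw [hA, hB]
      linarith
    · rw [hA, hB]
      linarith

/-- every nonempty block contributes at least `2` -/
theorem Loc.c2 (h : Loc k o e a b) (hA : A = 0 ∨ A = 1) (hB : B = 0 ∨ B = 1) (hf : 1 ≤ o + e) :
    2 ≤ cc k o e a b A B := by
  have hk := h.hk
  rcases hA with hA | hA <;> rcases hB with hB | hB
  · rw [hA, hB]
    have := h.cB1 hf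
    omega
  · have := h.cC1 (Or.inr ⟨hA, hB⟩) hf
    omega
  · have := h.cC1 (Or.inl ⟨hA, hB⟩) hf
    omega
  · rw [hA, hB]
    exact h.cA hf

/-- the predecessor -/
def pp (s j : ℕ) : ℕ := if j = 0 then s - 1 else j - 1

theorem pp_lt {s j : ℕ} (hs : 2 ≤ s) (hj : j < s) : pp s j < s := by
  unfold pp
  split_ifs <;> omega

theorem pp_succ {s i : ℕ} (hs : 2 ≤ s) (hi : i < s) : pp s ((i + 1) % s) = i := by
  unfold pp
  by_cases h : i + 1 < s
  · rw [Nat.mod_eq_of_lt h, if_neg (by omega)]
    omega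
  · have : i + 1 = s := by omega
    rw [this, Nat.mod_self, if_pos rfl]
    omega

theorem succ_pp {s j : ℕ} (hs : 2 ≤ s) (hj : j < s) : (pp s j + 1) % s = j := by
  unfold pp
  split_ifs with h
  · rw [show s - 1 + 1 = s by omega, Nat.mod_self, h]
  · rw [show j - 1 + 1 = j by omega, Nat.mod_eq_of_lt hj]

theorem reindex (s : ℕ) (hs : 2 ≤ s) (o e a b : ℕ → ℤ) :
    ∑ i ∈ range s, (a i * o ((i + 1) % s) + b i * e ((i + 1) % s)) =
      ∑ j ∈ range s, (a (pp s j) * o j + b (pp s j) * e j) := by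
  refine Finset.sum_nbij' (fun i => (i + 1) % s) (fun j => pp s j) ?_ ?_ ?_ ?_ ?_
  · intro i _
    exact Finset.mem_range.2 (Nat.mod_lt _ (by omega))
  · intro j hj
    exact Finset.mem_range.2 (pp_lt hs (Finset.mem_range.1 hj))
  · intro i hi
    exact pp_succ hs (Finset.mem_range.1 hi)
  · intro j hj
    exact succ_pp hs (Finset.mem_range.1 hj)
  · intro i hi
    simp only [pp_succ hs (Finset.mem_range.1 hi)]

theorem two_le_sum (s : ℕ) (c : ℕ → ℤ) (h0 : ∀ i ∈ range s, 0 ≤ c i) {i j : ℕ} (hi : i < s)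
    (hj : j < s) (hij : i ≠ j) : c i + c j ≤ ∑ i ∈ range s, c i := by
  rw [← Finset.sum_pair hij]
  refine Finset.sum_le_sum_of_subset_of_nonneg ?_ fun l hl _ => h0 l hl
  intro l hl
  rw [Finset.mem_insert, Finset.mem_singleton] at hl
  rcases hl with h | h <;> rw [h] <;> exact Finset.mem_range.2 (by assumption)

theorem three_le_sum (s : ℕ) (c : ℕ → ℤ) (h0 : ∀ i ∈ range s, 0 ≤ c i) {i j l : ℕ} (hi : i < s)
    (hj : j < s) (hl : l < s) (hij : i ≠ j) (hil : i ≠ l) (hjl : j ≠ l) :
    c i + c j + c l ≤ ∑ i ∈ range s, c i := by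
  have h1 : c i + c j + c l = ∑ x ∈ ({i, j, l} : Finset ℕ), c x := by
    rw [Finset.sum_insert (by simp [hij, hil]), Finset.sum_pair hjl, add_assoc]
  rw [h1]
  refine Finset.sum_le_sum_of_subset_of_nonneg ?_ fun x hx _ => h0 x hx
  intro x hx
  rw [Finset.mem_insert, Finset.mem_insert, Finset.mem_singleton] at hx
  rcases hx with h | h | h <;> rw [h] <;> exact Finset.mem_range.2 (by assumption)

/-- the cyclic argument: a nonempty block which is the only nonempty block with an inactive
predecessor is followed by a nonempty block as soon as there is another nonempty block -/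
theorem next_nonempty (s : ℕ) (hs : 2 ≤ s) (f : ℕ → ℤ) (T : ℕ → Prop)
    (hT : ∀ j, j < s → f (pp s j) = 0 → T j) (hf : ∀ j, 0 ≤ f j) (i : ℕ) (hi : i < s)
    (huniq : ∀ j, j < s → 1 ≤ f j → T j → j = i) (j0 : ℕ) (hj0 : j0 < s) (hne : j0 ≠ i)
    (hfj : 1 ≤ f j0) : 1 ≤ f ((i + 1) % s) := by
  classical
  have hex : ∃ t, 1 ≤ t ∧ t < s ∧ 1 ≤ f ((i + t) % s) := by
    by_cases h : i < j0
    · refine ⟨j0 - i, by omega, by omega, ?_⟩
      rw [show i + (j0 - i) = j0 by omega, Nat.mod_eq_of_lt hj0]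
      exact hfj
    · refine ⟨j0 + s - i, by omega, by omega, ?_⟩
      rw [show i + (j0 + s - i) = j0 + s by omega, Nat.add_mod_right, Nat.mod_eq_of_lt hj0]
      exact hfj
  obtain ⟨h1, h2, h3⟩ := Nat.find_spec hex
  set t := Nat.find hex with ht
  by_cases ht1 : t = 1
  · rw [ht1] at h3
    exact h3
  · exfalso
    have hmin := Nat.find_min hex (m := t - 1) (by omega)
    have hlt : (i + (t - 1)) % s < s := Nat.mod_lt _ (by omega)
    have hz : f ((i + (t - 1)) % s) = 0 := by
      by_contra hcon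
      apply hmin
      refine ⟨by omega, by omega, ?_⟩
      have := hf ((i + (t - 1)) % s)
      omega
    have hj : (i + t) % s < s := Nat.mod_lt _ (by omega)
    have hpp : pp s ((i + t) % s) = (i + (t - 1)) % s := by
      have h4 : (i + t) % s = ((i + (t - 1)) % s + 1) % s := by
        rw [Nat.mod_add_mod]
        congr 1
        omega
      rw [h4, pp_succ hs hlt]
    have h5 := huniq _ hj h3 (hT _ hj (by rw [hpp]; exact hz))
    by_cases h6 : i + t < s
    · rw [Nat.mod_eq_of_lt h6] at h5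
      omega
    · rw [Nat.mod_eq_sub_mod (by omega), Nat.mod_eq_of_lt (by omega)] at h5
      omega

/-- another nonempty block -/
theorem other (s : ℕ) (f : ℕ → ℤ) (hf : ∀ j, 0 ≤ f j) (i : ℕ) (hi : i < s)
    (h : f i < ∑ j ∈ range s, f j) : ∃ j, j < s ∧ j ≠ i ∧ 1 ≤ f j := by
  by_contra hcon
  push Not at hcon
  have : ∑ j ∈ range s, f j = f i := by
    refine Finset.sum_eq_single i ?_ fun h => absurd (Finset.mem_range.2 hi) h
    intro j hj hne
    have h1 := hcon j (Finset.mem_range.1 hj) hne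
    have h2 := hf j
    omega
  omega

/-- a third nonempty block -/
theorem other2 (s : ℕ) (f : ℕ → ℤ) (hf : ∀ j, 0 ≤ f j) (i l : ℕ) (hi : i < s) (hl : l < s)
    (hil : i ≠ l) (h : f i + f l < ∑ j ∈ range s, f j) :
    ∃ j, j < s ∧ j ≠ i ∧ j ≠ l ∧ 1 ≤ f j := by
  by_contra hcon
  push Not at hcon
  have : ∑ j ∈ range s, f j = f i + f l := by
    rw [← Finset.sum_pair hil]
    symm
    refine Finset.sum_subset ?_ ?_
    · intro x hx
      rw [Finset.mem_insert, Finset.mem_singleton] at hx
      rcases hx with h | h <;> rw [h] <;> exact Finset.mem_range.2 (by assumption)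
    · intro x hx hx2
      rw [Finset.mem_insert, Finset.mem_singleton, not_or] at hx2
      have h1 := hcon x (Finset.mem_range.1 hx) hx2.1 hx2.2
      have h2 := hf x
      omega
  omega

end UNumL

open UNumL in
theorem unum : S_UNUM := by
  intro k s N o e a b hk hs hN H h3
  have hk' : (3 : ℤ) ≤ k := by exact_mod_cast hk
  have hloc : ∀ i, i < s → Loc (k : ℤ) (o i) (e i) (a i) (b i) := fun i hi =>
    { hk := hk'
      o0 := H.o0 i
      e0 := H.e0 i
      o1 := H.o1 i
      e1 := H.e1 i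
      oe := H.oe i
      a01 := H.a01 i
      b01 := H.b01 i
      abe := H.abe i
      full := fun h => (H.full i hi h).2
      three := fun h h2 => H.three i (by exact_mod_cast h) h2 }
  set f : ℕ → ℤ := fun i => o i + e i with hfdef
  set c : ℕ → ℤ := fun i => cc k (o i) (e i) (a i) (b i) (a (pp s i)) (b (pp s i)) with hcdef
  have hf0 : ∀ i, 0 ≤ f i := fun i => add_nonneg (H.o0 i) (H.e0 i)
  -- the claim in terms of `c`
  have hsum : ∑ i ∈ range s, c i = (k + 1) * ∑ i ∈ range s, f i - QF s o e a b := by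
    have h1 : QF s o e a b = ∑ i ∈ range s, (f i * (f i - 1) - 2 * (a i * b i)) +
        2 * ∑ i ∈ range s, (a i * o ((i + 1) % s) + b i * e ((i + 1) % s)) := by
      unfold QF
      rw [Finset.mul_sum, ← Finset.sum_add_distrib]
    rw [h1, reindex s hs, Finset.mul_sum, Finset.mul_sum, ← Finset.sum_add_distrib,
      ← Finset.sum_sub_distrib]
    refine Finset.sum_congr rfl fun i _ => ?_
    simp only [hcdef, hfdef, cc]
    ring
  suffices hmain : 2 * (k : ℤ) < ∑ i ∈ range s, c i by
    have h4 : QF s o e a b = (k + 1) * ∑ i ∈ range s, f i - ∑ i ∈ range s, c i := by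
      rw [hsum]
      ring
    show QF s o e a b - 2 < ((k : ℤ) + 1) * (∑ i ∈ range s, f i - 2)
    rw [h4]
    linarith
  have hc2 : ∀ i, i < s → 1 ≤ f i → 2 ≤ c i := fun i hi h =>
    (hloc i hi).c2 (H.a01 _) (H.b01 _) h
  have hc0 : ∀ i ∈ range s, 0 ≤ c i := by
    intro i hi
    have hi' := Finset.mem_range.1 hi
    by_cases h : 1 ≤ f i
    · exact le_trans (by norm_num) (hc2 i hi' h)
    · have h5 : f i = 0 := by
        have := hf0 i
        omega
      exact ((hloc i hi').c0 h5).ge
  -- blocks with an inactive predecessor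
  let T : ℕ → Prop := fun i => a (pp s i) = 0 ∧ b (pp s i) = 0
  have hT : ∀ j, j < s → f (pp s j) = 0 → T j := fun j hj h =>
    (hloc _ (pp_lt hs hj)).zero h
  have hcT : ∀ i, T i → c i = cc k (o i) (e i) (a i) (b i) 0 0 := by
    intro i hi
    simp only [hcdef, hi.1, hi.2]
  -- one of them is nonempty
  have hex : ∃ i, i < s ∧ 1 ≤ f i := by
    by_contra hcon
    push Not at hcon
    have : ∑ i ∈ range s, f i = 0 := by
      refine Finset.sum_eq_zero fun i hi => ?_
      have h6 := hcon i (Finset.mem_range.1 hi)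
      have h7 := hf0 i
      omega
    change 3 ≤ ∑ i ∈ range s, f i at h3
    omega
  obtain ⟨i, hi, hfi, hTi⟩ : ∃ i, i < s ∧ 1 ≤ f i ∧ T i := by
    classical
    obtain ⟨h4, h5⟩ := Nat.find_spec hex
    set i := Nat.find hex with hidef
    refine ⟨i, h4, h5, ?_⟩
    by_cases h6 : i = 0
    · have h7 : pp s i = s - 1 := by
        unfold pp
        rw [if_pos h6]
      refine ⟨H.aN _ ?_, H.bN _ ?_⟩ <;> rw [h7] <;> omega
    · apply hT i h4
      have h7 : pp s i = i - 1 := by
        unfold pp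
        rw [if_neg h6]
      rw [h7]
      have h8 := Nat.find_min hex (m := i - 1) (by omega)
      by_contra h9
      apply h8
      refine ⟨by omega, ?_⟩
      have := hf0 (i - 1)
      omega
  by_cases huniq : ∀ j, j < s → 1 ≤ f j → T j → j = i
  · -- the only one
    by_cases hf3 : 3 ≤ f i
    · have h4 := (hloc i hi).cB3 hf3
      rw [← hcT i hTi] at h4
      have h5 := Finset.single_le_sum hc0 (Finset.mem_range.2 hi)
      omega
    by_cases hf2 : f i = 2
    · have h4 := (hloc i hi).cB2 hf2.ge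
      rw [← hcT i hTi] at h4
      obtain ⟨j, hj, hji, hfj⟩ := other s f hf0 i hi (by
        change 3 ≤ ∑ i ∈ range s, f i at h3
        omega)
      have h5 := hc2 j hj hfj
      have h6 := two_le_sum s c hc0 hi hj hji.symm
      omega
    · have hf1 : f i = 1 := by omega
      have h4 := (hloc i hi).cB1 hf1.ge
      rw [← hcT i hTi] at h4
      obtain ⟨j, hj, hji, hfj⟩ := other s f hf0 i hi (by
        change 3 ≤ ∑ i ∈ range s, f i at h3
        omega)
      have h5 := next_nonempty s hs f T hT hf0 i hi huniq j hj hji hfj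
      set l := (i + 1) % s with hl
      have hls : l < s := Nat.mod_lt _ (by omega)
      have hppl : pp s l = i := pp_succ hs hi
      have hli : i ≠ l := by
        intro h
        by_cases h6 : i + 1 < s
        · rw [hl, Nat.mod_eq_of_lt h6] at h
          omega
        · have h7 : i + 1 = s := by omega
          rw [hl, h7, Nat.mod_self] at h
          omega
      have hC : (a (pp s l) = 1 ∧ b (pp s l) = 0) ∨ (a (pp s l) = 0 ∧ b (pp s l) = 1) := by
        rw [hppl]
        have h6 := H.abe i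
        have h7 := H.o0 i
        have h8 : o i + e i = 1 := hf1
        have h9 : ¬ (a i = 0 ∧ b i = 0) := by
          intro h10
          apply hli
          refine (huniq l hls h5 ?_).symm
          show a (pp s l) = 0 ∧ b (pp s l) = 0
          rw [hppl]
          exact h10
        rcases H.a01 i with ha | ha <;> rcases H.b01 i with hb | hb
        · exact absurd ⟨ha, hb⟩ h9
        · exact Or.inr ⟨ha, hb⟩
        · exact Or.inl ⟨ha, hb⟩
        · omega
      by_cases hfl : 2 ≤ f l
      · have h6 : (k : ℤ) ≤ c l := (hloc l hls).cC2 hC hfl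
        have h7 := two_le_sum s c hc0 hi hls hli
        omega
      · have h6 : (k : ℤ) - 1 ≤ c l := (hloc l hls).cC1 hC h5
        obtain ⟨m, hm, hmi, hml, hfm⟩ := other2 s f hf0 i l hi hls hli (by
          change 3 ≤ ∑ i ∈ range s, f i at h3
          omega)
        have h7 := hc2 m hm hfm
        have h8 := three_le_sum s c hc0 hi hls hm hli hmi.symm hml.symm
        omega
  · push Not at huniq
    obtain ⟨j, hj, hfj, hTj, hji⟩ := huniq
    have h4 := (hloc i hi).cB1 hfi
    rw [← hcT i hTi] at h4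
    have h5 := (hloc j hj).cB1 hfj
    rw [← hcT j hTj] at h5
    have h6 := two_le_sum s c hc0 hi hj hji.symm
    omega

end Pool.Agent.H973.TD
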