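import Pool.Agent.H973.TD.Stm

/-!
# The numerical lemma, cyclic case (`S_UNUMC`)
-/

set_option autoImplicit false

namespace Pool.Agent.H973.TD

open Finset
open Classical

namespace UNumCL

/-- the contribution of a block with the values `o, e, a, b`, the preceding block has the values
`α, β` -/
def DD (k s o e a b α β : ℤ) : ℤ :=
  (s * (k + 2) * (k - 1) - 2) * (o + e) - (k * s - 2) * ((o + e) * (o + e - 1) - 2 * (a * b) +
    2 * (α * o + β * e))

/-- local constraints -/
structure Lc (k o e a b : ℤ) : Prop where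
  o0 : 0 ≤ o
  e0 : 0 ≤ e
  o1 : 2 * o ≤ k
  e1 : 2 * e ≤ k + 1
  oe : o + e ≤ k
  a01 : a = 0 ∨ a = 1
  b01 : b = 0 ∨ b = 1
  abe : a + b ≤ e
  full : o + e = k → a = 1 ∧ b = 1
  three : k = 3 → e = 2 → a = 1 ∧ b = 1

lemma DD_eq (k s o e a b α β : ℤ) : DD k s o e a b α β =
    (o + e) * (s * (k - 2) + 2 * k - 2) +
    (k * s - 2) * ((o + e) * (k + 1 - (o + e)) + 2 * (a * b) - 2 * (α * o + β * e)) := by
  unfold DD; ring

lemma ab_nonneg {k o e a b : ℤ} (h : Lc k o e a b) : 0 ≤ a * b := by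
  rcases h.a01 with h1 | h1 <;> rcases h.b01 with h2 | h2 <;> simp [h1, h2]

section

variable {k s o e a b : ℤ} (hk : 3 ≤ k) (hs : 3 ≤ s)

include hk hs

lemma B_pos : 0 < k * s - 2 := by nlinarith

lemma R_ge : 3 * (k - 2) + 2 * k - 2 ≤ s * (k - 2) + 2 * k - 2 := by nlinarith

lemma low : 2 * (k ^ 2 - 2) ≤ (s * (k + 2) * (k - 1) - 2) - 2 * (k * s - 2) := by
  nlinarith [mul_nonneg (sub_nonneg.2 hs) (mul_nonneg (by linarith : 0 ≤ k - 2)
    (by linarith : 0 ≤ k + 1)), mul_nonneg (sub_nonneg.2 hk) (by linarith : 0 ≤ k)]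

/-- type (A) -/
lemma typeA (h : Lc k o e a b) (hf : 1 ≤ o + e) : 2 * (k ^ 2 - 2) ≤ DD k s o e a b 1 1 := by
  obtain ⟨f, hfd⟩ : ∃ f, f = o + e := ⟨_, rfl⟩
  have hD : DD k s o e a b 1 1 = f * (s * (k - 2) + 2 * k - 2) +
      (k * s - 2) * (f * (k - 1 - f) + 2 * (a * b)) := by
    rw [DD_eq, hfd]; ring
  rw [hD]
  have hab := ab_nonneg h
  have hB := B_pos hk hs
  have hoe := h.oe
  rw [← hfd] at hf hoe
  rcases eq_or_lt_of_le hoe with h1 | h1
  · obtain ⟨ha, hb⟩ := h.full (by rw [← hfd]; exact h1)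
    rw [ha, hb, h1]
    apply le_of_eq
    ring
  rcases eq_or_lt_of_le (Int.le_sub_one_of_lt h1) with h2 | h2
  · rw [h2]
    have e1 : (k * s - 2) * ((k - 1) * (k - 1 - (k - 1)) + 2 * (a * b)) =
        2 * ((k * s - 2) * (a * b)) := by ring
    rw [e1]
    have e2 : 0 ≤ (k * s - 2) * (a * b) := mul_nonneg hB.le hab
    have e3 : (k - 1) * (3 * (k - 2) + 2 * k - 2) ≤ (k - 1) * (s * (k - 2) + 2 * k - 2) :=
      mul_le_mul_of_nonneg_left (R_ge hk hs) (by linarith)
    nlinarith
  · have h3 : f ≤ k - 2 := by linarith [Int.le_sub_one_of_lt h2]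
    have e2 : 0 ≤ (k * s - 2) * (a * b) := mul_nonneg hB.le hab
    have e3 : (k * s - 2) * (k - 2) ≤ (k * s - 2) * (f * (k - 1 - f)) := by
      apply mul_le_mul_of_nonneg_left _ hB.le
      nlinarith [mul_nonneg (sub_nonneg.2 hf) (sub_nonneg.2 h3)]
    have e4 : 1 * (s * (k - 2) + 2 * k - 2) ≤ f * (s * (k - 2) + 2 * k - 2) := by
      apply mul_le_mul_of_nonneg_right hf
      nlinarith
    have e5 := low hk hs
    nlinarith

/-- type (B) -/
lemma typeB (h : Lc k o e a b) (hf : 1 ≤ o + e) :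
    (s * (k + 2) * (k - 1) - 2) ≤ DD k s o e a b 0 0 := by
  obtain ⟨f, hfd⟩ : ∃ f, f = o + e := ⟨_, rfl⟩
  have hD : DD k s o e a b 0 0 = (s * (k + 2) * (k - 1) - 2) +
      ((f - 1) * (s * (k - 2) + 2 * k - 2) + (k * s - 2) * ((f - 1) * (k - f) + 2 * (a * b))) := by
    rw [DD_eq, hfd]; ring
  rw [hD]
  have hab := ab_nonneg h
  have hB := B_pos hk hs
  have hoe := h.oe
  rw [← hfd] at hf hoe
  have e1 : 0 ≤ (f - 1) * (s * (k - 2) + 2 * k - 2) := by
    apply mul_nonneg (by linarith)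
    nlinarith
  have e2 : 0 ≤ (k * s - 2) * ((f - 1) * (k - f) + 2 * (a * b)) := by
    apply mul_nonneg hB.le
    have := mul_nonneg (sub_nonneg.2 hf) (sub_nonneg.2 hoe)
    linarith
  linarith

/-- type (B), at least two elements -/
lemma typeB2 (h : Lc k o e a b) (hf : 2 ≤ o + e) :
    2 * (s * (k + 2) * (k - 1) - 2) - 2 * (k * s - 2) ≤ DD k s o e a b 0 0 := by
  obtain ⟨f, hfd⟩ : ∃ f, f = o + e := ⟨_, rfl⟩
  have hD : DD k s o e a b 0 0 = 2 * (s * (k + 2) * (k - 1) - 2) - 2 * (k * s - 2) +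
      ((f - 2) * (s * (k - 2) + 2 * k - 2) +
        (k * s - 2) * ((f - 2) * (k - 1 - f) + 2 * (a * b))) := by
    rw [DD_eq, hfd]; ring
  rw [hD]
  have hab := ab_nonneg h
  have hB := B_pos hk hs
  have hoe := h.oe
  rw [← hfd] at hf hoe
  rcases eq_or_lt_of_le hoe with h1 | h1
  · obtain ⟨ha, hb⟩ := h.full (by rw [← hfd]; exact h1)
    rw [ha, hb, h1]
    have e1 : (k - 2) * (s * (k - 2) + 2 * k - 2) + (k * s - 2) * ((k - 2) * (k - 1 - k) +
        2 * (1 * 1)) = 4 * s + (k - 2) * (2 * k - 2) + 2 * (k - 4) := by ring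
    rw [e1]
    nlinarith
  · have e1 : 0 ≤ (f - 2) * (s * (k - 2) + 2 * k - 2) := by
      apply mul_nonneg (by linarith)
      nlinarith
    have e2 : 0 ≤ (k * s - 2) * ((f - 2) * (k - 1 - f) + 2 * (a * b)) := by
      apply mul_nonneg hB.le
      have := mul_nonneg (sub_nonneg.2 hf) (by linarith [Int.le_sub_one_of_lt h1] : 0 ≤ k - 1 - f)
      linarith
    linarith

/-- type (C), in general -/
lemma typeC' (h : Lc k o e a b) (hf : 1 ≤ o + e) (x : ℤ) (hx1 : x ≤ o + e) (hx2 : 2 * x ≤ k + 1)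
    (hx3 : k = 3 → x = 2 → a = 1 ∧ b = 1) :
    (s * (k + 2) * (k - 1) - 2) - 2 * (k * s - 2) ≤
      (o + e) * (s * (k - 2) + 2 * k - 2) +
      (k * s - 2) * ((o + e) * (k + 1 - (o + e)) + 2 * (a * b) - 2 * x) := by
  obtain ⟨f, hfd⟩ : ∃ f, f = o + e := ⟨_, rfl⟩
  have hD : (o + e) * (s * (k - 2) + 2 * k - 2) +
      (k * s - 2) * ((o + e) * (k + 1 - (o + e)) + 2 * (a * b) - 2 * x) =
      (s * (k + 2) * (k - 1) - 2) - 2 * (k * s - 2) +
      ((f - 1) * (s * (k - 2) + 2 * k - 2) +
        (k * s - 2) * ((f - 1) * (k - f) + 2 + 2 * (a * b) - 2 * x)) := by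
    rw [hfd]; ring
  rw [hD]
  have hab := ab_nonneg h
  have hB := B_pos hk hs
  have hoe := h.oe
  rw [← hfd] at hf hoe hx1
  have hR : 0 ≤ s * (k - 2) + 2 * k - 2 := by nlinarith
  suffices hgoal : 0 ≤ (f - 1) * (s * (k - 2) + 2 * k - 2) +
        (k * s - 2) * ((f - 1) * (k - f) + 2 + 2 * (a * b) - 2 * x) by linarith
  rcases eq_or_lt_of_le hoe with h1 | h1
  · obtain ⟨ha, hb⟩ := h.full (by rw [← hfd]; exact h1)
    rw [ha, hb, h1]
    have e1 : (k * s - 2) * (3 - k) ≤ (k * s - 2) * ((k - 1) * (k - k) + 2 + 2 * (1 * 1) - 2 * x) := by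
      apply mul_le_mul_of_nonneg_left _ hB.le
      linarith
    have e2 : (k - 1) * (s * (k - 2) + 2 * k - 2) + (k * s - 2) * (3 - k) =
        2 * s + 2 * (k - 1) ^ 2 + 2 * (k - 3) := by ring
    nlinarith [sq_nonneg (k - 1)]
  rcases eq_or_lt_of_le (Int.le_sub_one_of_lt h1) with h2 | h2
  · rcases eq_or_lt_of_le hk with h3 | h3
    · -- `k = 3`
      subst h3
      have hf2 : f = 2 := by linarith
      rw [hf2] at hx1 ⊢
      rcases eq_or_lt_of_le hx1 with h4 | h4
      · obtain ⟨ha, hb⟩ := hx3 rfl h4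
        rw [ha, hb, h4]
        nlinarith
      · have h5 : x ≤ 1 := by linarith [Int.le_sub_one_of_lt h4]
        have e1 : 0 ≤ (3 * s - 2) * ((2 - 1) * (3 - 2) + 2 + 2 * (a * b) - 2 * x) := by
          apply mul_nonneg (by linarith)
          linarith
        linarith
    · rw [h2]
      have e1 : (k * s - 2) * (-1) ≤ (k * s - 2) *
          ((k - 1 - 1) * (k - (k - 1)) + 2 + 2 * (a * b) - 2 * x) := by
        apply mul_le_mul_of_nonneg_left _ hB.le
        linarith
      have e2 : (k - 1 - 1) * (s * (k - 2) + 2 * k - 2) + (k * s - 2) * (-1) =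
          s * ((k - 1) * (k - 4)) + 2 * (k ^ 2 - 3 * k + 3) := by ring
      have e3 : 0 ≤ s * ((k - 1) * (k - 4)) :=
        mul_nonneg (by linarith) (mul_nonneg (by linarith) (by linarith [Int.add_one_le_of_lt h3]))
      nlinarith
  · have h3 : f ≤ k - 2 := by linarith [Int.le_sub_one_of_lt h2]
    have e1 : 0 ≤ (f - 1) * (s * (k - 2) + 2 * k - 2) := mul_nonneg (by linarith) hR
    have e2 : 0 ≤ (k * s - 2) * ((f - 1) * (k - f) + 2 + 2 * (a * b) - 2 * x) := by
      apply mul_nonneg hB.le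
      have := mul_nonneg (sub_nonneg.2 hf) (sub_nonneg.2 h3)
      nlinarith
    linarith

/-- type (C) -/
lemma typeC (h : Lc k o e a b) (hf : 1 ≤ o + e) {α β : ℤ} (hα : α = 0 ∨ α = 1)
    (hβ : β = 0 ∨ β = 1) (hαβ : α + β = 1) :
    (s * (k + 2) * (k - 1) - 2) - 2 * (k * s - 2) ≤ DD k s o e a b α β := by
  rw [DD_eq]
  have o0 := h.o0
  have e0 := h.e0
  have o1 := h.o1
  have e1 := h.e1
  refine typeC' hk hs h hf _ ?_ ?_ ?_
  · rcases hα with h1 | h1 <;> rcases hβ with h2 | h2 <;> simp only [h1, h2] at hαβ ⊢ <;>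
      omega
  · rcases hα with h1 | h1 <;> rcases hβ with h2 | h2 <;> simp only [h1, h2] at hαβ ⊢ <;>
      omega
  · intro hk3 hx
    apply h.three hk3
    rcases hα with h1 | h1 <;> rcases hβ with h2 | h2 <;> simp only [h1, h2] at hαβ hx ⊢ <;>
      omega

/-- nonempty blocks -/
lemma ne_ge (h : Lc k o e a b) (hf : 1 ≤ o + e) {α β : ℤ} (hα : α = 0 ∨ α = 1)
    (hβ : β = 0 ∨ β = 1) : 2 * (k ^ 2 - 2) ≤ DD k s o e a b α β := by
  have hl := low hk hs
  have hB := B_pos hk hs
  rcases hα with h1 | h1 <;> rcases hβ with h2 | h2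
  · have := typeB hk hs h hf
    rw [h1, h2]; linarith
  · have := typeC hk hs h hf (α := α) (β := β) (Or.inl h1) (Or.inr h2) (by rw [h1, h2]; rfl)
    linarith
  · have := typeC hk hs h hf (α := α) (β := β) (Or.inr h1) (Or.inl h2) (by rw [h1, h2]; rfl)
    linarith
  · have := typeA hk hs h hf
    rw [h1, h2]; exact this

lemma nonneg (h : Lc k o e a b) {α β : ℤ} (hα : α = 0 ∨ α = 1)
    (hβ : β = 0 ∨ β = 1) : 0 ≤ DD k s o e a b α β := by
  have o0 := h.o0
  have e0 := h.e0
  rcases Int.lt_or_le (o + e) 1 with h1 | h1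
  · have ho : o = 0 := by omega
    have he : e = 0 := by omega
    have hab := ab_nonneg h
    have hB := B_pos hk hs
    rw [DD_eq, ho, he]
    have := mul_nonneg hB.le hab
    nlinarith
  · have := ne_ge hk hs h h1 hα hβ
    nlinarith

end

/-- shifting a sum over a period -/
lemma sum_shift (s : ℕ) (g : ℕ → ℤ) (hg : ∀ n, g (n + s) = g n) (c : ℕ) :
    ∑ n ∈ range s, g (n + c) = ∑ n ∈ range s, g n := by
  induction c with
  | zero => rfl
  | succ c ih =>
    rw [← ih]
    have h1 := Finset.sum_range_succ (fun n => g (n + c)) s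
    have h2 := Finset.sum_range_succ' (fun n => g (n + c)) s
    have h3 : g (s + c) = g (0 + c) := by rw [Nat.add_comm s c, hg, Nat.zero_add]
    have h4 : ∑ n ∈ range s, g (n + (c + 1)) = ∑ n ∈ range s, g (n + 1 + c) :=
      sum_congr rfl fun n _ => by rw [show n + (c + 1) = n + 1 + c by omega]
    rw [h4]
    linarith

/-- the cyclic lemma -/
theorem cyc (k s : ℕ) (hk : 3 ≤ k) (hs : 3 ≤ s) (o e a b : ℕ → ℤ)
    (hL : ∀ n, Lc k (o n) (e n) (a n) (b n)) (po : ∀ n, o (n + s) = o n)
    (pe : ∀ n, e (n + s) = e n) (pa : ∀ n, a (n + s) = a n) (pb : ∀ n, b (n + s) = b n)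
    (h3 : 3 ≤ ∑ n ∈ range s, (o n + e n)) :
    (s : ℤ) * (2 * ((k : ℤ) ^ 2 - 2)) ≤
      ∑ n ∈ range s, DD k s (o (n + 1)) (e (n + 1)) (a (n + 1)) (b (n + 1)) (a n) (b n) := by
  have hk' : (3 : ℤ) ≤ k := by exact_mod_cast hk
  have hs' : (3 : ℤ) ≤ s := by exact_mod_cast hs
  have hB := B_pos hk' hs'
  have hl := low hk' hs'
  obtain ⟨g, hg⟩ : ∃ g : ℕ → ℤ, ∀ n, g n =
    DD k s (o (n + 1)) (e (n + 1)) (a (n + 1)) (b (n + 1)) (a n) (b n) := ⟨_, fun _ => rfl⟩
  have pg : ∀ n, g (n + s) = g n := by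
    intro n
    have e1 : n + s + 1 = n + 1 + s := by omega
    rw [hg, hg, e1, po, pe, pa, pb, pa, pb]
  rw [sum_congr rfl (fun n _ => (hg n).symm)]
  have hg0 : ∀ n, 0 ≤ g n := fun n => by
    rw [hg]; exact nonneg hk' hs' (hL _) (hL n).a01 (hL n).b01
  have hne : ∀ n, 1 ≤ o (n + 1) + e (n + 1) → 2 * ((k : ℤ) ^ 2 - 2) ≤ g n := fun n h => by
    rw [hg]; exact ne_ge hk' hs' (hL _) h (hL n).a01 (hL n).b01
  -- the total
  have hT : (s : ℤ) * (2 * ((k : ℤ) ^ 2 - 2)) =
      2 * (s * (k + 2) * (k - 1) - 2) - 2 * (k * s - 2) := by ring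
  -- a nonempty block which is not of type (B) has a nonempty predecessor
  have hback : ∀ n, 1 ≤ o (n + 1) + e (n + 1) → ¬ (a n = 0 ∧ b n = 0) → 1 ≤ o n + e n := by
    intro n _ h2
    have h4 := (hL n).abe
    have h5 := (hL n).o0
    rcases (hL n).a01 with ha | ha <;> rcases (hL n).b01 with hb | hb
    · exact absurd ⟨ha, hb⟩ h2
    all_goals omega
  by_cases hB1 : ∃ n, 1 ≤ o (n + 1) + e (n + 1) ∧ a n = 0 ∧ b n = 0
  · obtain ⟨c, hc1, hca, hcb⟩ := hB1
    rw [← sum_shift s g pg c]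
    have h0 : g (0 + c) = DD k s (o (c + 1)) (e (c + 1)) (a (c + 1)) (b (c + 1)) 0 0 := by
      rw [Nat.zero_add, hg, hca, hcb]
    rcases Int.lt_or_le (o (c + 1) + e (c + 1)) 2 with h2 | h2
    · -- exactly one element
      have hc2 : o (c + 1) + e (c + 1) = 1 := by omega
      have hc3 : (s * (k + 2) * (k - 1) - 2 : ℤ) ≤ g (0 + c) := by
        rw [h0]; exact typeB hk' hs' (hL _) hc1
      -- two terms are sufficient
      have htwo : ∀ m, 1 ≤ m → m < s → g (0 + c) + g (m + c) ≤ ∑ n ∈ range s, g (n + c) := by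
        intro m hm1 hms
        have e1 : ∑ n ∈ ({0, m} : Finset ℕ), g (n + c) = g (0 + c) + g (m + c) := by
          rw [sum_pair (by omega)]
        rw [← e1]
        apply sum_le_sum_of_subset_of_nonneg
        · intro n hn
          rw [mem_insert, mem_singleton] at hn
          rw [mem_range]
          omega
        · intro n _ _; exact hg0 _
      by_cases hB2 : ∃ m, 1 ≤ m ∧ m < s ∧ 1 ≤ o (m + c + 1) + e (m + c + 1) ∧ a (m + c) = 0 ∧
          b (m + c) = 0
      · obtain ⟨m, hm1, hms, hm2, hma, hmb⟩ := hB2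
        have h5 : (s * (k + 2) * (k - 1) - 2 : ℤ) ≤ g (m + c) := by
          rw [hg, hma, hmb]; exact typeB hk' hs' (hL _) hm2
        have h6 := htwo m hm1 hms
        linarith
      · push Not at hB2
        -- another nonempty block
        have hex : ∃ m, 1 ≤ m ∧ m < s ∧ 1 ≤ o (m + c + 1) + e (m + c + 1) := by
          by_contra hcon
          push Not at hcon
          have e1 : ∑ n ∈ range s, (o n + e n) = ∑ n ∈ range s, (o (n + (c + 1)) + e (n + (c + 1))) :=
            (sum_shift s (fun n => o n + e n) (fun n => by simp only [po, pe]) (c + 1)).symm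
          have e2 : ∑ n ∈ range s, (o (n + (c + 1)) + e (n + (c + 1))) ≤
              ∑ n ∈ range s, (if n = 0 then (1 : ℤ) else 0) := by
            apply sum_le_sum
            intro n hn
            rw [mem_range] at hn
            split_ifs with h7
            · subst h7
              rw [Nat.zero_add]
              exact hc2.le
            · have := hcon n (by omega) hn
              rw [show n + (c + 1) = n + c + 1 by omega]
              omega
          rw [sum_ite_eq'] at e2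
          have e3 : (if 0 ∈ range s then (1 : ℤ) else 0) = 1 := if_pos (mem_range.2 (by omega))
          rw [e3] at e2
          omega
        obtain ⟨m, hm1, hms, hm2⟩ := hex
        -- going back to the successor
        have hdesc : ∀ j, j ≤ m - 1 → 1 ≤ o (m - j + c + 1) + e (m - j + c + 1) := by
          intro j
          induction j with
          | zero => intro _; simpa using hm2
          | succ j ih =>
            intro hj
            have h7 := ih (by omega)
            have h8 : m - (j + 1) + c + 1 = m - j + c := by omega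
            rw [h8]
            apply hback
            · exact h7
            · rintro ⟨h9, h10⟩
              exact hB2 (m - j) (by omega) (by omega) h7 h9 h10
        have h1c := hdesc (m - 1) le_rfl
        rw [show m - (m - 1) = 1 by omega] at h1c
        have hnB := hB2 1 le_rfl (by omega) h1c
        have h11 : a (1 + c) + b (1 + c) = 1 := by
          have q1 := (hL (1 + c)).abe
          have q2 := (hL (1 + c)).o0
          rw [Nat.add_comm 1 c] at q1 q2 hnB ⊢
          rcases (hL (c + 1)).a01 with ha | ha <;> rcases (hL (c + 1)).b01 with hb | hb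
          · exact absurd hb (hnB ha)
          · omega
          · omega
          · omega
        have h12 : (s * (k + 2) * (k - 1) - 2 : ℤ) - 2 * (k * s - 2) ≤ g (1 + c) := by
          rw [hg]
          exact typeC hk' hs' (hL _) h1c (hL _).a01 (hL _).b01 h11
        have h6 := htwo 1 le_rfl (by omega)
        linarith
    · -- at least two elements
      have h5 := typeB2 hk' hs' (hL (c + 1)) h2
      rw [← h0] at h5
      have h6 : g (0 + c) ≤ ∑ n ∈ range s, g (n + c) :=
        single_le_sum (f := fun n => g (n + c)) (fun n _ => hg0 _) (mem_range.2 (by omega))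
      linarith
  · push Not at hB1
    -- all blocks are nonempty
    have hstep : ∀ n, 1 ≤ o (n + 1) + e (n + 1) → 1 ≤ o n + e n := by
      intro n h
      exact hback n h (fun h' => hB1 n h h'.1 h'.2)
    have hex : ∃ n, n < s ∧ 1 ≤ o n + e n := by
      by_contra hcon
      push Not at hcon
      have : ∑ n ∈ range s, (o n + e n) ≤ 0 := sum_nonpos fun n hn => by
        have := hcon n (mem_range.1 hn); omega
      omega
    obtain ⟨n0, hn0, hn1⟩ := hex
    have hdown : ∀ m j, 1 ≤ o (m + j) + e (m + j) → 1 ≤ o m + e m := by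
      intro m j
      induction j with
      | zero => intro h; exact h
      | succ j ih => intro h; exact ih (hstep _ h)
    have hall : ∀ m, m ≤ s → 1 ≤ o m + e m := by
      intro m hm
      apply hdown m (n0 + s - m)
      rw [show m + (n0 + s - m) = n0 + s by omega, po, pe]
      exact hn1
    have h5 : ∑ n ∈ range s, (2 * ((k : ℤ) ^ 2 - 2)) ≤ ∑ n ∈ range s, g n := by
      apply sum_le_sum
      intro n hn
      rw [mem_range] at hn
      exact hne n (hall (n + 1) hn)
    rw [sum_const, card_range, nsmul_eq_mul] at h5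
    exact h5

end UNumCL

open UNumCL in
theorem unumc : S_UNUMC := by
  intro k s o e a b hk hs h h3
  have hLc : ∀ n, n < s → Lc k (o n) (e n) (a n) (b n) := fun n hn =>
    ⟨h.o0 n, h.e0 n, h.o1 n, h.e1 n, h.oe n, h.a01 n, h.b01 n, h.abe n,
      fun h1 => (h.full n hn h1).2, fun h1 h2 => h.three n (by exact_mod_cast h1) h2⟩
  have hs0 : 0 < s := by omega
  have hmod : ∀ n, n ∈ range s → n % s = n := fun n hn => Nat.mod_eq_of_lt (mem_range.1 hn)
  have h4 := cyc k s hk hs (fun n => o (n % s)) (fun n => e (n % s)) (fun n => a (n % s))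
    (fun n => b (n % s)) (fun n => hLc _ (Nat.mod_lt _ hs0)) (fun n => by simp only [Nat.add_mod_right])
    (fun n => by simp only [Nat.add_mod_right]) (fun n => by simp only [Nat.add_mod_right])
    (fun n => by simp only [Nat.add_mod_right])
    (by
      have e1 : ∑ n ∈ range s, (o (n % s) + e (n % s)) = ∑ n ∈ range s, (o n + e n) :=
        sum_congr rfl fun n hn => by rw [hmod n hn]
      rw [e1]
      exact h3)
  -- the first parts are shifted back
  obtain ⟨P, hP⟩ : ∃ P : ℕ → ℤ, ∀ n, P n = (s * (k + 2) * (k - 1) - 2) * (o n + e n) -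
    (k * s - 2) * ((o n + e n) * (o n + e n - 1) - 2 * (a n * b n)) := ⟨_, fun _ => rfl⟩
  have h5 : ∑ n ∈ range s, P ((n + 1) % s) = ∑ n ∈ range s, P n := by
    have e1 := sum_shift s (fun n => P (n % s)) (fun n => by simp only [Nat.add_mod_right]) 1
    rw [e1]
    exact sum_congr rfl fun n hn => by rw [hmod n hn]
  have h6 : ∑ n ∈ range s, DD k s (o ((n + 1) % s)) (e ((n + 1) % s)) (a ((n + 1) % s))
      (b ((n + 1) % s)) (a (n % s)) (b (n % s)) =
      ∑ n ∈ range s, P n - ∑ n ∈ range s, (k * s - 2 : ℤ) *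
        (2 * (a n * o ((n + 1) % s) + b n * e ((n + 1) % s))) := by
    rw [← h5, ← sum_sub_distrib]
    refine sum_congr rfl fun n hn => ?_
    rw [hmod n hn, hP]
    unfold DD
    ring
  have h7 : ∑ n ∈ range s, P n - ∑ n ∈ range s, (k * s - 2 : ℤ) *
        (2 * (a n * o ((n + 1) % s) + b n * e ((n + 1) % s))) =
      (s * (k + 2) * (k - 1) - 2) * ∑ n ∈ range s, (o n + e n) - (k * s - 2) * QF s o e a b := by
    unfold QF
    rw [mul_sum, mul_sum, ← sum_sub_distrib, ← sum_sub_distrib]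
    refine sum_congr rfl fun n _ => ?_
    rw [hP]
    ring
  rw [h6, h7] at h4
  nlinarith

end Pool.Agent.H973.TD
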