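import Pool.Agent.H973.TD.Stm

set_option autoImplicit false

namespace Pool.Agent.H973.TD

open Finset
open Classical

theorem z2 (huc : S_UC) (hua : S_UA) (hcon : S_UCON) (hcnt : S_UCNT) (hn : S_UNUMC)
    (hb1 : S_B1) (hb3 : S_B3) : S_Z2 := by
  intro k r hk hr
  obtain ⟨s, rfl⟩ : ∃ s, r = s + 1 := ⟨r - 1, by omega⟩
  have hs : 3 ≤ s := by omega
  have hs1 : s + 1 - 1 = s := by omega
  have hcard : Fintype.card (BV k s s) = k * s := by
    rw [huc k s s (by omega) le_rfl]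
    obtain ⟨j, rfl⟩ : ∃ j, k = j + 1 := ⟨k - 1, by omega⟩
    simp only [Nat.add_sub_cancel]
    ring
  have hks : 9 ≤ k * s := Nat.mul_le_mul hk hs
  have hksR : (9 : ℝ) ≤ (k : ℝ) * (s : ℝ) := by exact_mod_cast hks
  rw [hs1]
  refine (hb3 (k * s) (s + 1) (BV k s s) (BG k s s) (by omega) hcard ?_).trans ?_
  · intro I hI
    exact Nat.lt_succ_of_le (hua k s s hk (by omega) le_rfl I hI)
  · refine hb1 (BV k s s) (BG k s s) _ (by omega) ?_
    intro S hS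
    obtain ⟨hC, hsum⟩ := hcon k s s hk (by omega) le_rfl S
    have h1 := hcnt k s s hk (by omega) le_rfl S
    have h3 : (3 : ℤ) ≤ ∑ i ∈ range s, (oc S i + ec S i) := by
      rw [hsum]
      exact_mod_cast hS
    have h2 := hn k s (oc S) (ec S) (al S) (be S) hk hs hC h3
    rw [hsum] at h2
    have hpos : (0 : ℤ) < (k : ℤ) * s - 2 := by
      have : (9 : ℤ) ≤ (k : ℤ) * s := by exact_mod_cast hks
      linarith
    have h4 : ((dd (BG k s s) S : ℤ) - 2) * ((k : ℤ) * s - 2) ≤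
        ((s : ℤ) * (k + 2) * (k - 1) - 2) * ((S.card : ℤ) - 2) :=
      (mul_le_mul_of_nonneg_right (by linarith) hpos.le).trans h2
    have h5 : ((dd (BG k s s) S : ℝ) - 2) * ((k : ℝ) * s - 2) ≤
        ((s : ℝ) * (k + 2) * (k - 1) - 2) * ((S.card : ℝ) - 2) := by exact_mod_cast h4
    have hposR : (0 : ℝ) < (k : ℝ) * s - 2 := by linarith
    have h6 : 2 * (((((s + 1 : ℕ) : ℝ) - 1) * ((k : ℝ) + 2) * ((k : ℝ) - 1) - 2) /
        (2 * ((k : ℝ) * (((s + 1 : ℕ) : ℝ) - 1) - 2))) * ((S.card : ℝ) - 2) =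
        (((s : ℝ) * (k + 2) * (k - 1) - 2) * ((S.card : ℝ) - 2)) / ((k : ℝ) * s - 2) := by
      have e1 : (((s + 1 : ℕ) : ℝ) - 1) = (s : ℝ) := by push_cast; ring
      rw [e1]
      field_simp
    rw [h6, le_div_iff₀ hposR]
    exact h5

theorem z3 (huc : S_UC) (hua : S_UA) (hcon : S_UCON) (hcnt : S_UCNT) (hn : S_UNUM)
    (hb1 : S_B1s) (hb3 : S_B3) : S_Z3 := by
  intro k r m hk hr hm1 hm2
  obtain ⟨s, rfl⟩ : ∃ s, r = s + 1 := ⟨r - 1, by omega⟩
  have hs : 2 ≤ s := by omega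
  have hs1 : s + 1 - 1 = s := by omega
  rw [hs1] at hm1 hm2
  obtain ⟨N, rfl⟩ : ∃ N, m = (k - 1) * s + N := ⟨m - (k - 1) * s, by omega⟩
  have hks : k * s = (k - 1) * s + s := by
    obtain ⟨j, rfl⟩ : ∃ j, k = j + 1 := ⟨k - 1, by omega⟩
    simp only [Nat.add_sub_cancel]
    ring
  have hN : N < s := by omega
  have hcard : Fintype.card (BV k s N) = (k - 1) * s + N := huc k s N (by omega) hN.le
  have h4 : 4 ≤ (k - 1) * s := Nat.mul_le_mul (by omega : 2 ≤ k - 1) hs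
  refine (hb3 ((k - 1) * s + N) (s + 1) (BV k s N) (BG k s N) (by omega) hcard ?_).trans_lt ?_
  · intro I hI
    exact Nat.lt_succ_of_le (hua k s N hk hs hN.le I hI)
  · refine hb1 (BV k s N) (BG k s N) _ (by omega) ?_
    intro S hS
    obtain ⟨hC, hsum⟩ := hcon k s N hk hs hN.le S
    have h1 := hcnt k s N hk hs hN.le S
    have h3 : (3 : ℤ) ≤ ∑ i ∈ range s, (oc S i + ec S i) := by
      rw [hsum]
      exact_mod_cast hS
    have h2 := hn k s N (oc S) (ec S) (al S) (be S) hk hs hN hC h3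
    rw [hsum] at h2
    have h5 : (dd (BG k s N) S : ℤ) - 2 < ((k : ℤ) + 1) * ((S.card : ℤ) - 2) := by linarith
    have h6 : (dd (BG k s N) S : ℝ) - 2 < ((k : ℝ) + 1) * ((S.card : ℝ) - 2) := by
      exact_mod_cast h5
    calc (dd (BG k s N) S : ℝ) - 2 < ((k : ℝ) + 1) * ((S.card : ℝ) - 2) := h6
      _ = 2 * (((k : ℝ) + 1) / 2) * ((S.card : ℝ) - 2) := by ring

end Pool.Agent.H973.TD
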